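import Pool.Agent.V11256.KI.Enc
import Pool.Agent.V11256.ST.Main

/-!
# Regular `k`-independent sets in `r`-regular graphs
-/

set_option autoImplicit false
set_option linter.unusedSectionVars false
set_option linter.unusedFintypeInType false
set_option linter.unusedDecidableInType false

namespace Pool.Agent.V11256.KI

open Finset Pool.Agent.NPC Pool.Agent.NPC.WC648 Pool.Agent.H648R3.WC
open Pool.Agent.V11256.ST (LG adjB tup neB)

/-- `k`-independent sets: the induced subgraph has maximum degree at most `k`. -/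
def IsKInd {V : Type*} (k : ℕ) (G : SimpleGraph V) (S : Set V) : Prop :=
  ∀ v ∈ S, (G.neighborSet v ∩ S).ncard ≤ k

/-- All vertices of `S` have the same degree in `G`. -/
def SameDeg {V : Type*} (G : SimpleGraph V) (S : Set V) : Prop :=
  ∀ u ∈ S, ∀ v ∈ S, (G.neighborSet u).ncard = (G.neighborSet v).ncard

theorem dg_ncard {V : Type*} (G : SimpleGraph V) (S : Finset V) (v : V) :
    dg G S v = (G.neighborSet v ∩ (S : Set V)).ncard := by
  classical
  unfold dg
  rw [← Set.ncard_coe_finset]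
  congr 1
  ext w
  simp only [coe_filter, Set.mem_ofPred_eq, Set.mem_inter_iff, SimpleGraph.mem_neighborSet,
    mem_coe]
  exact and_comm

theorem kind_iff {V : Type*} (k : ℕ) (G : SimpleGraph V) (S : Finset V) :
    KInd k G S ↔ IsKInd k G (S : Set V) := by
  unfold KInd IsKInd
  simp only [dg_ncard, mem_coe]

theorem deg_univ {V : Type*} [Fintype V] (G : SimpleGraph V) (v : V) :
    dg G univ v = (G.neighborSet v).ncard := by
  rw [dg_ncard]; simp

theorem IsKInd.image {V V' : Type*} {G : SimpleGraph V} {G' : SimpleGraph V'} (e : G ≃g G')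
    {k : ℕ} {S : Set V} (h : IsKInd k G S) : IsKInd k G' (e '' S) := by
  rintro _ ⟨v, hv, rfl⟩
  refine le_trans (le_of_eq ?_) (h v hv)
  rw [← Set.ncard_image_of_injective _ e.injective, Set.image_inter e.injective]
  congr 2
  ext x
  rw [SimpleGraph.mem_neighborSet]
  constructor
  · intro hx
    refine ⟨e.symm x, ?_, e.apply_symm_apply x⟩
    rw [SimpleGraph.mem_neighborSet, ← e.map_adj_iff, e.apply_symm_apply]
    exact hx
  · rintro ⟨y, hy, rfl⟩
    exact e.map_adj_iff.2 hy

/-- The reduction. -/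
noncomputable def redF {W Y : Type} [Fintype W] [Fintype Y] (G : SimpleGraph W)
    (J : SimpleGraph Y) (w : Bool → Y) (df : W → ℕ) (port : Fin 3 → W) (K : ℕ) (φ : Φ) : LG × ℕ :=
  (red G J w df port φ, φ.length * (12 * K + 10))

/-- The promise. -/
def Prm (r : ℕ) (x : LG × ℕ) : Prop :=
  1 ≤ x.2 ∧ ∀ v, ((ST.gr x.1).neighborSet v).ncard = r

/-- The question. -/
def Qst (k : ℕ) (x : LG × ℕ) : Prop :=
  ∃ S : Set {v : ℕ // v ∈ x.1.1}, IsKInd k (ST.gr x.1) S ∧ SameDeg (ST.gr x.1) S ∧ x.2 ≤ S.ncard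

/-- Avoid the empty instance. -/
def fx (φ : Φ) : Φ := if φ = [] then [((0, 0, false), (0, 0, false), (0, 0, true))] else φ

theorem fx_poly : Poly fx := by
  unfold fx
  refine NPC.Poly.ite ((NPC.Poly.isEmpty NPC.Poly.id).congr fun φ => ?_) (NPC.Poly.const _)
    NPC.Poly.id
  cases φ <;> simp

theorem fx_ne (φ : Φ) : fx φ ≠ [] := by
  unfold fx
  split_ifs with h
  · simp
  · exact h

theorem fx_nae (φ : Φ) : NAE φ ↔ NAE (fx φ) := by
  unfold fx
  split_ifs with h
  · subst h
    constructor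
    · intro _
      refine ⟨fun x => x.2.2, ?_⟩
      intro t ht
      simp only [List.mem_singleton] at ht
      subst ht
      simp
    · intro _
      exact ⟨fun _ => true, fun t ht => by simp at ht⟩
  · exact Iff.rfl

theorem hardPr_ne : HardPr (fun φ : Φ => φ ≠ []) NAE :=
  hardI_NAE.toHardPr.trans fx_poly (fun φ _ => fx_ne φ) (fun φ _ => fx_nae φ)

theorem hardPr_kind (k r : ℕ) (hk : 1 ≤ k) (hr : 3 ≤ r) (hkr : k + 1 ≤ r) :
    HardPr (Prm r) (Qst k) := by
  classical
  obtain ⟨W, Y, iW, iY, G, J, port, w, h, j, hG, hP, hD, hJ⟩ := exists_data k r hk hr hkr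
  set df : W → ℕ := fun a => r - (dg G univ a + if a ∈ Set.range port then 1 else 0) with hdf
  have hdeg1 : ∀ a, dg G univ a + (if a ∈ Set.range port then 1 else 0) + df a = r := by
    intro a
    obtain ⟨b, h1, h2, h3⟩ := hD a
    have : (if a ∈ Set.range port then 1 else 0) = b := by
      split_ifs with g
      · exact (h1 g).symm
      · exact (h2 g).symm
    simp only [hdf, this]
    omega
  have hdeg2 : ∀ y, dg J univ y + (if y ∈ Set.range w then 1 else 0) = r := by
    intro y
    obtain ⟨b, h1, h2, h3⟩ := hJ y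
    have : (if y ∈ Set.range w then 1 else 0) = b := by
      split_ifs with g
      · exact (h1 g).symm
      · exact (h2 g).symm
    rw [this]; exact h3
  have hreg : ∀ φ : Φ, ∀ v, ((ST.gr (red G J w df port φ)).neighborSet v).ncard = r := by
    intro φ
    obtain ⟨e⟩ := listIso G J w df port φ
    refine ST.ncard_of_iso e fun v => ?_
    rw [← deg_univ]
    exact big_deg (lk φ) hG.inj hP.inj hdeg1 hdeg2 v
  set K := 2 * h + nP df * j with hK
  refine hardPr_ne.trans (f := redF G J w df port K) ?_ (fun φ hφ => ?_) (fun φ hφ => ?_)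
  · unfold redF
    exact NPC.Poly.pair (red_poly G J w df port) (NPC.Poly.mul
      (UPoly.length NPC.Poly.id).toPoly (NPC.Poly.const _))
  · refine ⟨?_, hreg φ⟩
    change 1 ≤ φ.length * (12 * K + 10)
    have : 0 < φ.length := List.length_pos_iff.2 hφ
    nlinarith
  · have hV : Fintype.card (Fin (oN φ) × Fin 4) = 12 * φ.length := by
      rw [Fintype.card_prod, Fintype.card_fin, Fintype.card_fin]
      unfold oN; ring
    have hcount : φ.length * (12 * K + 10) =
        Fintype.card (Fin (oN φ) × Fin 4) * (2 * h + nP df * j) + 2 * (5 * φ.length) := by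
      rw [hV, ← hK]; ring
    obtain ⟨e⟩ := listIso G J w df port φ
    have hq : Qst k (redF G J w df port K φ) ↔ ∃ S : Set {v : ℕ // v ∈ (red G J w df port φ).1},
      IsKInd k (ST.gr (red G J w df port φ)) S ∧ SameDeg (ST.gr (red G J w df port φ)) S ∧
        φ.length * (12 * K + 10) ≤ S.ncard := Iff.rfl
    rw [hq]
    constructor
    · intro hn
      obtain ⟨I, h1, h2⟩ := ind_of_nae hn
      obtain ⟨S, h3, h4⟩ := big_down (lk φ) hG hP h1 (df := df)
      refine ⟨e '' (S : Set _), ((kind_iff k _ S).1 h3).image e, ?_, ?_⟩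
      · intro u _ v _
        rw [hreg φ, hreg φ]
      · rw [Set.ncard_image_of_injective _ e.injective, Set.ncard_coe_finset, h4, hcount]
        omega
    · rintro ⟨S, h1, _, h3⟩
      have hfin : (e.symm '' S).Finite := Set.toFinite _
      set T : Finset ((Fin (oN φ) × Fin 4) × Cell W Y df) := hfin.toFinset with hT
      have hTc : (T : Set _) = e.symm '' S := hfin.coe_toFinset
      have hTk : KInd k (big G J w df port (lk φ)) T := by
        rw [kind_iff, hTc]
        exact h1.image e.symm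
      have hTcard : T.card = S.ncard := by
        rw [← Set.ncard_coe_finset, hTc, Set.ncard_image_of_injective _ e.symm.injective]
      obtain ⟨I, h5, h6⟩ := big_up (lk φ) hG hP hTk (q := 5 * φ.length) (by
        rw [hTcard, ← hcount]; exact h3)
      exact nae_of_ind h5 h6

/-! ### Membership in `NP` -/

/-- No repetitions. -/
def ndB (w : List ℕ) : Bool := w.zipIdx.all fun a => w.zipIdx.all fun b =>
  !(decide (a.1 = b.1)) || decide (a.2 = b.2)

theorem ndB_iff (w : List ℕ) : ndB w = true ↔ w.Nodup := by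
  unfold ndB
  simp only [List.all_eq_true, Bool.or_eq_true, Bool.not_eq_true', decide_eq_false_iff_not,
    decide_eq_true_eq]
  rw [List.nodup_iff_injective_get]
  constructor
  · intro h i j hij
    have h1 : (w.get i, i.1) ∈ w.zipIdx := List.mem_zipIdx_iff_getElem?.2 (by simp)
    have h2 : (w.get j, j.1) ∈ w.zipIdx := List.mem_zipIdx_iff_getElem?.2 (by simp)
    rcases h _ h1 _ h2 with h3 | h3
    · exact absurd hij h3
    · exact Fin.ext h3
  · rintro h ⟨a, i⟩ ha ⟨b, j⟩ hb
    rw [List.mem_zipIdx_iff_getElem?] at ha hb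
    simp only at ha hb ⊢
    obtain ⟨hi, hai⟩ := List.getElem?_eq_some_iff.1 ha
    obtain ⟨hj, hbj⟩ := List.getElem?_eq_some_iff.1 hb
    by_cases hab : a = b
    · right
      have : (⟨i, hi⟩ : Fin w.length) = ⟨j, hj⟩ := h (by
        simp only [List.get_eq_getElem]
        rw [hai, hbj, hab])
      exact congrArg Fin.val this
    · left; exact hab

/-- Verification. -/
def verI (k : ℕ) (x : LG) (w : List ℕ) : Bool :=
  ndB w && ((w.all fun v => decide (v ∈ x.1)) &&
    w.all fun v => (tup neB (w.filter (adjB x v)) (k + 1)).isEmpty)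

theorem tup_empty_iff (l : List ℕ) (m : ℕ) :
    (tup neB l m).isEmpty = true ↔ l.toFinset.card < m := by
  rw [List.isEmpty_iff, List.eq_nil_iff_forall_not_mem]
  constructor
  · intro h
    by_contra hc
    obtain ⟨s, hs, hc⟩ := exists_subset_card_eq (not_lt.1 hc)
    refine h s.toList (ST.mem_tup.2 ⟨by rw [length_toList, hc], ?_, ?_⟩)
    · intro u hu
      exact List.mem_toFinset.1 (hs (mem_toList.1 hu))
    · refine List.Pairwise.imp ?_ s.nodup_toList
      intro a b h
      simpa [neB] using h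
  · intro h t ht
    obtain ⟨h1, h2, h3⟩ := ST.mem_tup.1 ht
    have hnd : t.Nodup := by
      refine h3.imp ?_
      intro a b h
      simpa [neB] using h
    have : m ≤ l.toFinset.card := by
      rw [← h1, ← List.toFinset_card_of_nodup hnd]
      refine card_le_card fun u hu => ?_
      rw [List.mem_toFinset] at hu ⊢
      exact h2 u hu
    omega

theorem verI_iff (k : ℕ) (x : LG) (w : List ℕ) : verI k x w = true ↔
    w.Nodup ∧ (∀ v ∈ w, v ∈ x.1) ∧ ∀ v ∈ w, (w.filter (adjB x v)).toFinset.card ≤ k := by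
  unfold verI
  simp only [Bool.and_eq_true, ndB_iff, List.all_eq_true, decide_eq_true_eq, tup_empty_iff,
    Nat.lt_succ_iff]

theorem verI_poly (k : ℕ) : Poly (fun y : LG × List ℕ => verI k y.1 y.2) := by
  unfold verI ndB
  refine NPC.Poly.and ?_ (NPC.Poly.and ?_ ?_)
  · fun_prop
  · fun_prop
  · refine NPC.Poly.all (p := fun (y : LG × List ℕ) v =>
      (tup neB (y.2.filter (adjB y.1 v)) (k + 1)).isEmpty) (NPC.Poly.snd NPC.Poly.id) ?_
    refine NPC.Poly.isEmpty (ST.poly_tup (r := fun _ => neB) ?_ ?_ (k + 1))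
    · unfold neB
      exact NPC.Poly.not (NPC.Poly.decide_eq (NPC.Poly.fst (NPC.Poly.snd NPC.Poly.id))
        (NPC.Poly.snd (NPC.Poly.snd NPC.Poly.id)))
    · refine NPC.Poly.filter (p := fun (y : (LG × List ℕ) × ℕ) u => adjB y.1.1 y.2 u)
        (NPC.Poly.snd (NPC.Poly.fst NPC.Poly.id)) ?_
      exact ST.poly_adjB (NPC.Poly.fst (NPC.Poly.fst (NPC.Poly.fst NPC.Poly.id)))
        (NPC.Poly.snd (NPC.Poly.fst NPC.Poly.id)) (NPC.Poly.snd NPC.Poly.id)

theorem sz_sublist {l l' : List ℕ} (h : l.Sublist l') : sz l ≤ sz l' := by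
  induction h with
  | slnil => exact le_rfl
  | cons a _ ih => rw [sz_list_cons]; omega
  | cons_cons a _ ih => rw [sz_list_cons, sz_list_cons]; omega

theorem inNP_kind (k r : ℕ) : InNPP (fun x : LG × ℕ => Prm r x ∧ Qst k x) := by
  refine inNPP_of (β := List ℕ) (R := fun y => decide (1 ≤ y.1.2) && (ST.regB r y.1.1 &&
    (verI k y.1.1 y.2 && decide (y.1.2 ≤ y.2.length)))) ?_ Polynomial.X ?_
  · refine NPC.Poly.and ?_ (NPC.Poly.and ((ST.poly_regB r).comp
      (NPC.Poly.fst (NPC.Poly.fst NPC.Poly.id))) (NPC.Poly.and ?_ ?_))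
    · fun_prop
    · exact (verI_poly k).comp (f := fun y : (LG × ℕ) × List ℕ => (y.1.1, y.2))
        (NPC.Poly.pair (NPC.Poly.fst (NPC.Poly.fst NPC.Poly.id)) (NPC.Poly.snd NPC.Poly.id))
    · fun_prop
  · intro x
    simp only [Bool.and_eq_true, decide_eq_true_eq, ST.regB_iff, verI_iff]
    have hnb : ∀ (S : Set {v : ℕ // v ∈ x.1.1}) (w : List ℕ),
        (∀ v : {v : ℕ // v ∈ x.1.1}, v.1 ∈ w ↔ v ∈ S) → (∀ v ∈ w, v ∈ x.1.1) →
        ∀ v : {v : ℕ // v ∈ x.1.1}, ((ST.gr x.1).neighborSet v ∩ S).ncard =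
          (w.filter (adjB x.1 v.1)).toFinset.card := by
      intro S w hw1 hw2 v
      rw [← Set.ncard_coe_finset, ← Set.ncard_image_of_injective _ Subtype.val_injective]
      congr 1
      ext u
      simp only [Set.mem_image, Set.mem_inter_iff, SimpleGraph.mem_neighborSet, mem_coe,
        List.mem_toFinset, List.mem_filter]
      constructor
      · rintro ⟨u', ⟨h1, h2⟩, rfl⟩
        exact ⟨(hw1 u').2 h2, (ST.adjB_iff x.1 v u').2 h1⟩
      · rintro ⟨h1, h2⟩
        exact ⟨⟨u, hw2 u h1⟩, ⟨(ST.adjB_iff x.1 v ⟨u, hw2 u h1⟩).1 h2,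
          (hw1 ⟨u, hw2 u h1⟩).1 h1⟩, rfl⟩
    constructor
    · rintro ⟨⟨h1, h2⟩, S, h3, _, h4⟩
      classical
      set w : List ℕ := x.1.1.dedup.filter (fun v => decide (∃ h : v ∈ x.1.1, (⟨v, h⟩ :
        {v : ℕ // v ∈ x.1.1}) ∈ S)) with hw
      have hmem : ∀ v, v ∈ w ↔ ∃ h : v ∈ x.1.1, (⟨v, h⟩ : {v : ℕ // v ∈ x.1.1}) ∈ S := by
        intro v
        rw [hw, List.mem_filter, List.mem_dedup, decide_eq_true_eq]
        exact ⟨fun h => h.2, fun h => ⟨h.1, h⟩⟩
      have hnd : w.Nodup := (List.nodup_dedup _).filter _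
      have hw1 : ∀ v : {v : ℕ // v ∈ x.1.1}, v.1 ∈ w ↔ v ∈ S := by
        intro v
        rw [hmem]
        exact ⟨fun ⟨_, h⟩ => h, fun h => ⟨v.2, h⟩⟩
      have hw2 : ∀ v ∈ w, v ∈ x.1.1 := fun v hv => ((hmem v).1 hv).1
      refine ⟨w, ?_, h1, h2, ⟨hnd, hw2, ?_⟩, ?_⟩
      · rw [Polynomial.eval_X]
        have h5 : sz w ≤ sz x.1.1 := sz_sublist ((List.filter_sublist).trans
          (List.dedup_sublist _))
        obtain ⟨⟨x1, x2⟩, p⟩ := x
        rw [sz_pair, sz_pair]
        simp only at h5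
        omega
      · intro v hv
        obtain ⟨hv1, hv2⟩ := (hmem v).1 hv
        have := h3 ⟨v, hv1⟩ hv2
        rw [hnb S w hw1 hw2] at this
        exact this
      · have h6 : S.ncard = w.length := by
          rw [← List.toFinset_card_of_nodup hnd, ← Set.ncard_coe_finset,
            ← Set.ncard_image_of_injective _ Subtype.val_injective]
          congr 1
          ext u
          simp only [Set.mem_image, mem_coe, List.mem_toFinset, hmem]
          constructor
          · rintro ⟨v, hv, rfl⟩; exact ⟨v.2, hv⟩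
          · rintro ⟨hu, hv⟩; exact ⟨_, hv, rfl⟩
        rw [← h6]; exact h4
    · rintro ⟨w, _, h1, h2, ⟨h3, h4, h5⟩, h6⟩
      refine ⟨⟨h1, h2⟩, {v | v.1 ∈ w}, ?_, ?_, ?_⟩
      · intro v hv
        rw [hnb {v | v.1 ∈ w} w (fun _ => Iff.rfl) h4]
        exact h5 v.1 hv
      · intro u _ v _
        rw [h2, h2]
      · have h7 : ({v | v.1 ∈ w} : Set {v : ℕ // v ∈ x.1.1}).ncard = w.length := by
          rw [← List.toFinset_card_of_nodup h3, ← Set.ncard_coe_finset,
            ← Set.ncard_image_of_injective _ Subtype.val_injective]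
          congr 1
          ext u
          simp only [Set.mem_image, mem_coe, List.mem_toFinset, Set.mem_ofPred_eq]
          constructor
          · rintro ⟨v, hv, rfl⟩; exact hv
          · intro hu; exact ⟨⟨u, h4 u hu⟩, hu, rfl⟩
        rw [h7]; exact h6

end Pool.Agent.V11256.KI
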