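import Pool.Agent.V11256.KI.Cell

/-!
# The regular graph built from cells
-/

set_option autoImplicit false
set_option linter.unusedSectionVars false
set_option linter.unusedFintypeInType false
set_option linter.unusedDecidableInType false

namespace Pool.Agent.V11256.KI

open Finset Classical

/-- Gadgets with two terminals used to raise degrees. -/
structure Pad (k j : ℕ) {Y : Type*} [Fintype Y] (J : SimpleGraph Y) (w : Bool → Y) : Prop where
  inj : Function.Injective w
  le : ∀ S, KInd k J S → S.card ≤ j
  ex : ∃ S, KInd k J S ∧ S.card = j ∧ ∀ b, w b ∉ S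

/-- The vertices of a cell: two copies of the gadget, and `df a` pads for each vertex `a`. -/
abbrev Cell (W Y : Type*) (df : W → ℕ) : Type _ := (Bool × W) ⊕ ((Σ a : W, Fin (df a)) × Y)

section

variable {V W Y : Type*} [Fintype V] [Fintype W] [Fintype Y] (G : SimpleGraph W)
  (J : SimpleGraph Y) (w : Bool → Y) (df : W → ℕ) (port : Fin 3 → W)

/-- Adjacency in a cell. -/
def cadj : Cell W Y df → Cell W Y df → Prop
  | Sum.inl x, Sum.inl y => x.1 = y.1 ∧ G.Adj x.2 y.2
  | Sum.inl x, Sum.inr y => y.1.1 = x.2 ∧ y.2 = w x.1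
  | Sum.inr y, Sum.inl x => y.1.1 = x.2 ∧ y.2 = w x.1
  | Sum.inr x, Sum.inr y => x.1 = y.1 ∧ J.Adj x.2 y.2

theorem cadj_symm {x y : Cell W Y df} (h : cadj G J w df x y) : cadj G J w df y x := by
  rcases x with x | x <;> rcases y with y | y
  · exact ⟨h.1.symm, h.2.symm⟩
  · exact h
  · exact h
  · exact ⟨h.1.symm, h.2.symm⟩

theorem cadj_irrefl {x : Cell W Y df} (h : cadj G J w df x x) : False := by
  rcases x with x | x
  · exact G.loopless.irrefl _ h.2
  · exact J.loopless.irrefl _ h.2

/-- Links between ports. -/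
structure Links (V : Type*) where
  M : V × Fin 3 → V × Fin 3
  inv : ∀ x, M (M x) = x
  ne : ∀ x, (M x).1 ≠ x.1

variable (M : Links V)

/-- The graph built from cells. -/
def big : SimpleGraph (V × Cell W Y df) where
  Adj x y := (x.1 = y.1 ∧ cadj G J w df x.2 y.2) ∨ ∃ s i i', M.M (x.1, i) = (y.1, i') ∧
    x.2 = Sum.inl (s, port i) ∧ y.2 = Sum.inl (s, port i')
  symm := ⟨fun x y h => by
    rcases h with ⟨h1, h2⟩ | ⟨s, i, i', h1, h2, h3⟩
    · exact Or.inl ⟨h1.symm, cadj_symm G J w df h2⟩
    · refine Or.inr ⟨s, i', i, ?_, h3, h2⟩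
      rw [← h1, M.inv]⟩
  loopless := ⟨fun x h => by
    rcases h with ⟨h1, h2⟩ | ⟨s, i, i', h1, h2, h3⟩
    · exact cadj_irrefl G J w df h2
    · exact M.ne (x.1, i) (by rw [h1])⟩

/-- Independent sets of the base graph. -/
def Ind (I : Finset V) : Prop := ∀ v ∈ I, ∀ i, (M.M (v, i)).1 ∉ I

variable {G J w df port} {k h j : ℕ}

/-- The number of pads of a cell. -/
def nP (df : W → ℕ) : ℕ := ∑ a, df a

theorem card_sigma' : Fintype.card (Σ a : W, Fin (df a)) = nP df := by
  rw [Fintype.card_sigma]
  simp [nP]

theorem big_up (H : Gad k h G port) (P : Pad k j J w) {S : Finset (V × Cell W Y df)}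
    (hS : KInd k (big G J w df port M) S) {q : ℕ}
    (hc : Fintype.card V * (2 * h + nP df * j) + 2 * q ≤ S.card) :
    ∃ I : Finset V, Ind M I ∧ q ≤ I.card := by
  -- the pieces
  set A : V → Bool → Finset W := fun v s => univ.filter fun a => (v, Sum.inl (s, a)) ∈ S with hA
  set B : V → (Σ a : W, Fin (df a)) → Finset Y := fun v q =>
    univ.filter fun y => (v, Sum.inr (q, y)) ∈ S with hB
  have hAk : ∀ v s, KInd k G (A v s) := by
    intro v s a ha
    have ha' : (v, Sum.inl (s, a)) ∈ S := (mem_filter.1 ha).2
    refine (dg_le_of_inj (G := big G J w df port M) (S := S) (v := (v, Sum.inl (s, a)))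
      (fun b => (v, Sum.inl (s, b))) ?_ ?_).trans (hS _ ha')
    · intro b b' hb
      simpa using hb
    · intro b hb hab
      exact ⟨(mem_filter.1 hb).2, Or.inl ⟨rfl, rfl, hab⟩⟩
  have hBk : ∀ v q, KInd k J (B v q) := by
    intro v q a ha
    have ha' : (v, Sum.inr (q, a)) ∈ S := (mem_filter.1 ha).2
    refine (dg_le_of_inj (G := big G J w df port M) (S := S) (v := (v, Sum.inr (q, a)))
      (fun b => (v, Sum.inr (q, b))) ?_ ?_).trans (hS _ ha')
    · intro b b' hb
      simpa using hb
    · intro b hb hab
      exact ⟨(mem_filter.1 hb).2, Or.inl ⟨rfl, rfl, hab⟩⟩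
  set I : Bool → Finset V := fun s => univ.filter fun v => (A v s).card = h + 1 with hI
  have hcA : ∀ v s, (A v s).card ≤ h + if v ∈ I s then 1 else 0 := by
    intro v s
    have h1 := H.le _ (hAk v s)
    split_ifs with hv
    · exact h1
    · have : (A v s).card ≠ h + 1 := fun e => hv (mem_filter.2 ⟨mem_univ _, e⟩)
      omega
  -- the total
  have htot : S.card ≤ Fintype.card V * (2 * h + nP df * j) + ((I false).card + (I true).card) := by
    have h1 : S.card = ∑ v : V, (S.filter fun p => p.1 = v).card :=
      card_eq_sum_card_fiberwise fun p _ => mem_univ _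
    have h2 : ∀ v : V, (S.filter fun p => p.1 = v).card ≤
        ((A v false).card + (A v true).card) + ∑ q, (B v q).card := by
      intro v
      have e : S.filter (fun p => p.1 = v) ⊆
          ((A v false).image fun a => (v, (Sum.inl (false, a) : Cell W Y df))) ∪
          ((A v true).image fun a => (v, (Sum.inl (true, a) : Cell W Y df))) ∪
          (univ : Finset (Σ a : W, Fin (df a))).biUnion fun q =>
            (B v q).image fun y => (v, (Sum.inr (q, y) : Cell W Y df)) := by
        rintro ⟨u, c⟩ hp
        rw [mem_filter] at hp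
        obtain ⟨hp1, hp2⟩ := hp
        simp only at hp2
        subst hp2
        rw [mem_union, mem_union, mem_image, mem_image, mem_biUnion]
        rcases c with ⟨s, a⟩ | ⟨q, y⟩
        · cases s
          · exact Or.inl (Or.inl ⟨a, mem_filter.2 ⟨mem_univ _, hp1⟩, rfl⟩)
          · exact Or.inl (Or.inr ⟨a, mem_filter.2 ⟨mem_univ _, hp1⟩, rfl⟩)
        · exact Or.inr ⟨q, mem_univ _, mem_image.2 ⟨y, mem_filter.2 ⟨mem_univ _, hp1⟩, rfl⟩⟩
      refine (card_le_card e).trans ((card_union_le _ _).trans (Nat.add_le_add
        ((card_union_le _ _).trans (Nat.add_le_add card_image_le card_image_le)) ?_))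
      exact card_biUnion_le.trans (sum_le_sum fun q _ => card_image_le)
    have h3 : ∀ v : V, (S.filter fun p => p.1 = v).card ≤ (2 * h + nP df * j) +
        ((if v ∈ I false then 1 else 0) + (if v ∈ I true then 1 else 0)) := by
      intro v
      have h4 := h2 v
      have h5 := hcA v false
      have h6 := hcA v true
      have h7 : ∑ q, (B v q).card ≤ nP df * j := by
        refine (sum_le_sum fun q _ => P.le _ (hBk v q)).trans ?_
        rw [sum_const, card_univ, card_sigma', smul_eq_mul]
      omega
    rw [h1]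
    refine (sum_le_sum fun v _ => h3 v).trans ?_
    rw [sum_add_distrib, sum_const, card_univ, smul_eq_mul, sum_add_distrib]
    refine Nat.add_le_add le_rfl (Nat.add_le_add ?_ ?_)
    · rw [← card_filter]; exact card_le_card fun v hv => (mem_filter.1 hv).2
    · rw [← card_filter]; exact card_le_card fun v hv => (mem_filter.1 hv).2
  -- independence
  have hInd : ∀ s, Ind M (I s) := by
    intro s v hv i hv'
    obtain ⟨u, i'⟩ : V × Fin 3 := M.M (v, i)
    obtain ⟨⟨u, i'⟩, hM⟩ : ∃ x, M.M (v, i) = x := ⟨_, rfl⟩
    rw [hM] at hv'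
    simp only at hv'
    obtain ⟨h1, h2⟩ := H.sat _ (hAk v s) (mem_filter.1 hv).2 i
    obtain ⟨h3, _⟩ := H.sat _ (hAk u s) (mem_filter.1 hv').2 i'
    have h4 : (v, (Sum.inl (s, port i) : Cell W Y df)) ∈ S := (mem_filter.1 h1).2
    have h5 : (u, (Sum.inl (s, port i') : Cell W Y df)) ∈ S := (mem_filter.1 h3).2
    have h6 := hS _ h4
    have hne : u ≠ v := by
      have := M.ne (v, i)
      rw [hM] at this
      exact this
    have h7 : dg G (A v s) (port i) + 1 ≤ dg (big G J w df port M) S (v, Sum.inl (s, port i)) := by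
      have e : (((A v s).filter fun b => G.Adj (port i) b).image
          (fun b => (v, (Sum.inl (s, b) : Cell W Y df))) ∪
          {(u, (Sum.inl (s, port i') : Cell W Y df))}).card = dg G (A v s) (port i) + 1 := by
        rw [card_union_of_disjoint, card_image_of_injective, card_singleton]
        · rfl
        · intro b b' hb
          simpa using hb
        · rw [disjoint_left]
          intro x hx hx'
          rw [mem_image] at hx
          rw [mem_singleton] at hx'
          obtain ⟨b, _, rfl⟩ := hx
          exact hne (congrArg Prod.fst hx').symm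
      rw [← e]
      refine card_le_card fun x hx => ?_
      rw [mem_union, mem_image, mem_singleton] at hx
      rw [mem_filter]
      rcases hx with ⟨b, hb, rfl⟩ | rfl
      · rw [mem_filter] at hb
        exact ⟨(mem_filter.1 hb.1).2, Or.inl ⟨rfl, rfl, hb.2⟩⟩
      · exact ⟨h5, Or.inr ⟨s, i, i', hM, rfl, rfl⟩⟩
    omega
  rcases le_total (I false).card (I true).card with hle | hle
  · exact ⟨I true, hInd true, by omega⟩
  · exact ⟨I false, hInd false, by omega⟩

theorem big_down (H : Gad k h G port) (P : Pad k j J w) {I : Finset V} (hI : Ind M I) :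
    ∃ S : Finset (V × Cell W Y df), KInd k (big G J w df port M) S ∧
      S.card = Fintype.card V * (2 * h + nP df * j) + 2 * I.card := by
  obtain ⟨L, hL1, hL2, hL3⟩ := H.lo
  obtain ⟨U, hU1, hU2⟩ := H.hi
  obtain ⟨T, hT1, hT2, hT3⟩ := P.ex
  set C : V → Finset W := fun v => if v ∈ I then U else L with hC
  have hCk : ∀ v, KInd k G (C v) := by
    intro v
    simp only [hC]
    split_ifs
    · exact hU1
    · exact hL1
  set S : Finset (V × Cell W Y df) := univ.filter fun p => match p.2 with
    | Sum.inl x => x.2 ∈ C p.1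
    | Sum.inr y => y.2 ∈ T with hS
  have hSl : ∀ v s a, (v, (Sum.inl (s, a) : Cell W Y df)) ∈ S ↔ a ∈ C v := by
    intro v s a; simp [hS]
  have hSr : ∀ v q y, (v, (Sum.inr (q, y) : Cell W Y df)) ∈ S ↔ y ∈ T := by
    intro v q y; simp [hS]
  refine ⟨S, ?_, ?_⟩
  · rintro ⟨v, ⟨s, a⟩ | ⟨q, y⟩⟩ hx
    · rw [hSl] at hx
      refine le_trans ?_ (hCk v a hx)
      refine card_le_card_of_injOn (fun p => match p.2 with
        | Sum.inl x => x.2
        | Sum.inr y => y.1.1) ?_ ?_
      · rintro ⟨v', ⟨s', a'⟩ | ⟨q', y'⟩⟩ hp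
        · rw [mem_coe, mem_filter, hSl] at hp
          rw [mem_coe, mem_filter]
          obtain ⟨hp1, ⟨hp2, hp3⟩ | ⟨s0, i, i', hp2, hp3, hp4⟩⟩ := hp
          · simp only at hp2 ⊢
            subst hp2
            exact ⟨hp1, hp3.2⟩
          · exfalso
            simp only [Sum.inl.injEq, Prod.mk.injEq] at hp2 hp3 hp4
            by_cases hv : v ∈ I
            · have h1 := hI v hv i
              rw [hp2] at h1
              simp only [hC, if_neg h1] at hp1
              rw [hp4.2] at hp1
              exact hL3 i' hp1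
            · simp only [hC, if_neg hv] at hx
              rw [hp3.2] at hx
              exact hL3 i hx
        · exfalso
          rw [mem_coe, mem_filter, hSr] at hp
          obtain ⟨hp1, ⟨hp2, hp3⟩ | ⟨s0, i, i', hp2, hp3, hp4⟩⟩ := hp
          · have h5 : y' = w s := hp3.2
            rw [h5] at hp1
            exact hT3 s hp1
          · simp at hp4
      · rintro ⟨v1, ⟨s1, a1⟩ | ⟨q1, y1⟩⟩ hp ⟨v2, ⟨s2, a2⟩ | ⟨q2, y2⟩⟩ hq hpq
        · rw [mem_coe, mem_filter, hSl] at hp hq
          simp only at hpq
          subst hpq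
          have key : ∀ v' s', (big G J w df port M).Adj (v, Sum.inl (s, a)) (v', Sum.inl (s', a1)) →
              a1 ∈ C v' → v' = v ∧ s' = s := by
            intro v' s' hh ha1
            rcases hh with ⟨hp2, hp3⟩ | ⟨s0, i, i', hp2, hp3, hp4⟩
            · exact ⟨hp2.symm, hp3.1.symm⟩
            · exfalso
              simp only [Sum.inl.injEq, Prod.mk.injEq] at hp2 hp3 hp4
              by_cases hv : v ∈ I
              · have h1 := hI v hv i
                rw [hp2] at h1
                simp only [hC, if_neg h1] at ha1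
                rw [hp4.2] at ha1
                exact hL3 i' ha1
              · simp only [hC, if_neg hv] at hx
                rw [hp3.2] at hx
                exact hL3 i hx
          obtain ⟨e1, e2⟩ := key v1 s1 hp.2 hp.1
          obtain ⟨e3, e4⟩ := key v2 s2 hq.2 hq.1
          rw [e1, e2, e3, e4]
        · exfalso
          rw [mem_coe, mem_filter, hSr] at hq
          obtain ⟨hq1, ⟨hq2, hq3⟩ | ⟨s0, i, i', hq2, hq3, hq4⟩⟩ := hq
          · have h5 : y2 = w s := hq3.2
            rw [h5] at hq1
            exact hT3 s hq1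
          · simp at hq4
        · exfalso
          rw [mem_coe, mem_filter, hSr] at hp
          obtain ⟨hq1, ⟨hq2, hq3⟩ | ⟨s0, i, i', hq2, hq3, hq4⟩⟩ := hp
          · have h5 : y1 = w s := hq3.2
            rw [h5] at hq1
            exact hT3 s hq1
          · simp at hq4
        · exfalso
          rw [mem_coe, mem_filter, hSr] at hp
          obtain ⟨hq1, ⟨hq2, hq3⟩ | ⟨s0, i, i', hq2, hq3, hq4⟩⟩ := hp
          · have h5 : y1 = w s := hq3.2
            rw [h5] at hq1
            exact hT3 s hq1
          · simp at hq4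
    · rw [hSr] at hx
      refine le_trans ?_ (hT1 y hx)
      have key : ∀ p ∈ S, (big G J w df port M).Adj (v, Sum.inr (q, y)) p →
          ∃ y', p = (v, Sum.inr (q, y')) ∧ y' ∈ T ∧ J.Adj y y' := by
        rintro ⟨v', ⟨s', a'⟩ | ⟨q', y'⟩⟩ hp hadj
        · exfalso
          rcases hadj with ⟨hp2, hp3⟩ | ⟨s0, i, i', hp2, hp3, hp4⟩
          · have h5 : y = w s' := hp3.2
            rw [h5] at hx
            exact hT3 s' hx
          · simp at hp3
        · rcases hadj with ⟨hp2, hp3⟩ | ⟨s0, i, i', hp2, hp3, hp4⟩
          · simp only at hp2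
            subst hp2
            refine ⟨y', ?_, (hSr _ _ _).1 hp, hp3.2⟩
            have h6 : q = q' := hp3.1
            rw [h6]
          · simp at hp3
      refine card_le_card_of_injOn (fun p => match p.2 with
        | Sum.inl _ => y
        | Sum.inr y => y.2) ?_ ?_
      · intro p hp
        rw [mem_coe, mem_filter] at hp
        obtain ⟨y', rfl, h2, h3⟩ := key p hp.1 hp.2
        rw [mem_coe, mem_filter]
        exact ⟨h2, h3⟩
      · intro p hp p' hp' e
        rw [mem_coe, mem_filter] at hp hp'
        obtain ⟨y', rfl, h2, h3⟩ := key p hp.1 hp.2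
        obtain ⟨y'', rfl, h2', h3'⟩ := key p' hp'.1 hp'.2
        simp only at e
        rw [e]
  · have e1 : S.card = ∑ v : V, (S.filter fun p => p.1 = v).card :=
      card_eq_sum_card_fiberwise fun p _ => mem_univ _
    have e2 : ∀ v : V, (S.filter fun p => p.1 = v).card = (2 * h + nP df * j) +
        2 * (if v ∈ I then 1 else 0) := by
      intro v
      have e3 : S.filter (fun p => p.1 = v) = (((univ : Finset Bool) ×ˢ C v).disjSum
          ((univ : Finset (Σ a : W, Fin (df a))) ×ˢ T)).image (fun c => (v, c)) := by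
        ext ⟨u, c⟩
        rw [mem_filter, mem_image]
        constructor
        · rintro ⟨h1, h2⟩
          simp only at h2
          subst h2
          refine ⟨c, ?_, rfl⟩
          rcases c with ⟨s, a⟩ | ⟨q, y⟩
          · rw [hSl] at h1
            rw [inl_mem_disjSum, mem_product]
            exact ⟨mem_univ _, h1⟩
          · rw [hSr] at h1
            rw [inr_mem_disjSum, mem_product]
            exact ⟨mem_univ _, h1⟩
        · rintro ⟨c', hc', e⟩
          rw [Prod.mk.injEq] at e
          obtain ⟨rfl, rfl⟩ := e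
          refine ⟨?_, rfl⟩
          rcases c' with ⟨s, a⟩ | ⟨q, y⟩
          · rw [inl_mem_disjSum, mem_product] at hc'
            rw [hSl]; exact hc'.2
          · rw [inr_mem_disjSum, mem_product] at hc'
            rw [hSr]; exact hc'.2
      rw [e3, card_image_of_injective _ (fun a b hab => congrArg Prod.snd hab), card_disjSum,
        card_product, card_product, card_univ, card_univ, card_sigma', hT2, Fintype.card_bool]
      simp only [hC]
      split_ifs
      · rw [hU2]; ring
      · rw [hL2]; ring
    rw [e1, sum_congr rfl fun v _ => e2 v, sum_add_distrib, sum_const, card_univ, smul_eq_mul,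
      ← mul_sum, ← card_filter]
    congr 2
    congr 1
    ext v; simp

/-! ### Degrees -/

theorem big_deg (hport : Function.Injective port) (hw : Function.Injective w) {r : ℕ}
    (h1 : ∀ a, dg G univ a + (if a ∈ Set.range port then 1 else 0) + df a = r)
    (h2 : ∀ y, dg J univ y + (if y ∈ Set.range w then 1 else 0) = r)
    (x : V × Cell W Y df) : dg (big G J w df port M) univ x = r := by
  obtain ⟨v, ⟨s, a⟩ | ⟨q, y⟩⟩ := x
  · rw [← h1 a]
    have e : (univ.filter fun p => (big G J w df port M).Adj (v, Sum.inl (s, a)) p) =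
        ((univ.filter fun b => G.Adj a b).image
          (fun b => (v, (Sum.inl (s, b) : Cell W Y df)))) ∪
        ((univ.filter fun p : V × Cell W Y df => ∃ i i', M.M (v, i) = (p.1, i') ∧ a = port i ∧
          p.2 = Sum.inl (s, port i'))) ∪
        ((univ : Finset (Fin (df a))).image
          (fun i => (v, (Sum.inr (⟨a, i⟩, w s) : Cell W Y df)))) := by
      ext ⟨u, c⟩
      rw [mem_filter, mem_union, mem_union, mem_image, mem_filter, mem_image]
      constructor
      · rintro ⟨_, ⟨g1, g2⟩ | ⟨s0, i, i', g1, g2, g3⟩⟩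
        · simp only at g1
          subst g1
          rcases c with ⟨s', a'⟩ | ⟨⟨a', i⟩, y'⟩
          · left; left
            have g3 : s = s' := g2.1
            subst g3
            exact ⟨a', mem_filter.2 ⟨mem_univ _, g2.2⟩, rfl⟩
          · right
            have g3 : a' = a := g2.1
            have g4 : y' = w s := g2.2
            subst g3
            subst g4
            exact ⟨i, mem_univ _, rfl⟩
        · left; right
          simp only [Sum.inl.injEq, Prod.mk.injEq] at g1 g2 g3
          obtain ⟨rfl, g4⟩ := g2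
          exact ⟨mem_univ _, i, i', g1, g4, g3⟩
      · rintro ((⟨b, g1, g2⟩ | ⟨_, i, i', g1, g2, g3⟩) | ⟨i, g1, g2⟩)
        · rw [Prod.mk.injEq] at g2
          obtain ⟨rfl, rfl⟩ := g2
          exact ⟨mem_univ _, Or.inl ⟨rfl, rfl, (mem_filter.1 g1).2⟩⟩
        · refine ⟨mem_univ _, Or.inr ⟨s, i, i', g1, ?_, g3⟩⟩
          rw [g2]
        · rw [Prod.mk.injEq] at g2
          obtain ⟨rfl, rfl⟩ := g2
          exact ⟨mem_univ _, Or.inl ⟨rfl, rfl, rfl⟩⟩
    have hlink : (univ.filter fun p : V × Cell W Y df => ∃ i i', M.M (v, i) = (p.1, i') ∧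
        a = port i ∧ p.2 = Sum.inl (s, port i')).card =
        if a ∈ Set.range port then 1 else 0 := by
      split_ifs with ha
      · obtain ⟨i, rfl⟩ := ha
        rw [card_eq_one]
        obtain ⟨⟨u, i'⟩, hM⟩ : ∃ x, M.M (v, i) = x := ⟨_, rfl⟩
        refine ⟨(u, Sum.inl (s, port i')), ?_⟩
        ext ⟨u', c⟩
        rw [mem_filter, mem_singleton]
        constructor
        · rintro ⟨_, i1, i1', g1, g2, g3⟩
          have g4 := hport g2
          subst g4
          rw [hM] at g1
          rw [Prod.mk.injEq] at g1
          simp only at g1 g3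
          rw [g3, ← g1.1, ← g1.2]
        · intro g
          rw [Prod.mk.injEq] at g
          exact ⟨mem_univ _, i, i', by rw [hM, g.1], rfl, g.2⟩
      · rw [card_eq_zero, filter_eq_empty_iff]
        rintro p _ ⟨i, i', _, g2, _⟩
        exact ha ⟨i, g2.symm⟩
    unfold dg
    rw [e, card_union_of_disjoint, card_union_of_disjoint, hlink, card_image_of_injective,
      card_image_of_injective, card_univ, Fintype.card_fin]
    · intro i i' hi
      simpa using hi
    · intro b b' hb
      simpa using hb
    · rw [disjoint_left]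
      intro p hp hp'
      rw [mem_image] at hp
      rw [mem_filter] at hp'
      obtain ⟨b, _, rfl⟩ := hp
      obtain ⟨_, i, i', g1, g2, g3⟩ := hp'
      exact M.ne (v, i) (by rw [g1])
    · rw [disjoint_left]
      intro p hp hp'
      rw [mem_image] at hp'
      obtain ⟨i, _, rfl⟩ := hp'
      rw [mem_union, mem_image, mem_filter] at hp
      rcases hp with ⟨b, _, g⟩ | ⟨_, i, i', _, _, g⟩
      · simp at g
      · simp at g
  · rw [← h2 y]
    have e : (univ.filter fun p => (big G J w df port M).Adj (v, Sum.inr (q, y)) p) =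
        ((univ.filter fun b => J.Adj y b).image
          (fun b => (v, (Sum.inr (q, b) : Cell W Y df)))) ∪
        ((univ.filter fun s : Bool => y = w s).image
          (fun s => (v, (Sum.inl (s, q.1) : Cell W Y df)))) := by
      ext ⟨u, c⟩
      rw [mem_filter, mem_union, mem_image, mem_image]
      constructor
      · rintro ⟨_, ⟨g1, g2⟩ | ⟨s0, i, i', g1, g2, g3⟩⟩
        · simp only at g1
          subst g1
          rcases c with ⟨s', a'⟩ | ⟨q', y'⟩
          · right
            have g3 : q.1 = a' := g2.1
            have g4 : y = w s' := g2.2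
            subst g3
            exact ⟨s', mem_filter.2 ⟨mem_univ _, g4⟩, rfl⟩
          · left
            have g3 : q = q' := g2.1
            subst g3
            exact ⟨y', mem_filter.2 ⟨mem_univ _, g2.2⟩, rfl⟩
        · simp at g2
      · rintro (⟨b, g1, g2⟩ | ⟨s, g1, g2⟩)
        · rw [Prod.mk.injEq] at g2
          obtain ⟨rfl, rfl⟩ := g2
          exact ⟨mem_univ _, Or.inl ⟨rfl, rfl, (mem_filter.1 g1).2⟩⟩
        · rw [Prod.mk.injEq] at g2
          obtain ⟨rfl, rfl⟩ := g2
          exact ⟨mem_univ _, Or.inl ⟨rfl, rfl, (mem_filter.1 g1).2⟩⟩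
    have hww : (univ.filter fun s : Bool => y = w s).card =
        if y ∈ Set.range w then 1 else 0 := by
      split_ifs with ha
      · obtain ⟨s, rfl⟩ := ha
        rw [card_eq_one]
        refine ⟨s, ?_⟩
        ext s'
        rw [mem_filter, mem_singleton]
        constructor
        · rintro ⟨_, g⟩; exact (hw g).symm
        · rintro rfl; exact ⟨mem_univ _, rfl⟩
      · rw [card_eq_zero, filter_eq_empty_iff]
        rintro s _ g
        exact ha ⟨s, g.symm⟩
    unfold dg
    rw [e, card_union_of_disjoint, card_image_of_injective, card_image_of_injective, hww]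
    · intro s s' hs
      simpa using hs
    · intro b b' hb
      simpa using hb
    · rw [disjoint_left]
      intro p hp hp'
      rw [mem_image] at hp hp'
      obtain ⟨i, _, rfl⟩ := hp'
      obtain ⟨b, _, g⟩ := hp
      simp at g

end

end Pool.Agent.V11256.KI
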