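import Mathlib

/-!
# Gadgets for `k`-independent sets
-/

set_option autoImplicit false
set_option linter.unusedSectionVars false
set_option linter.unusedFintypeInType false
set_option linter.unusedDecidableInType false

namespace Pool.Agent.V11256.KI

open Finset Classical

/-- The number of neighbours of `v` in `S`. -/
noncomputable def dg {V : Type*} (G : SimpleGraph V) (S : Finset V) (v : V) : ℕ :=
  (S.filter fun w => G.Adj v w).card

/-- `k`-independent sets. -/
def KInd {V : Type*} (k : ℕ) (G : SimpleGraph V) (S : Finset V) : Prop := ∀ v ∈ S, dg G S v ≤ k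

theorem dg_le_of_inj {V W : Type*} {G : SimpleGraph V} {H : SimpleGraph W} {S : Finset V}
    {T : Finset W} {v : V} {a : W} (φ : W → V) (hφ : Function.Injective φ)
    (h : ∀ b ∈ T, H.Adj a b → φ b ∈ S ∧ G.Adj v (φ b)) : dg H T a ≤ dg G S v := by
  refine Finset.card_le_card_of_injOn φ ?_ hφ.injOn
  intro b hb
  rw [mem_coe, mem_filter] at hb ⊢
  exact h b hb.1 hb.2

theorem dg_mono {V : Type*} {G : SimpleGraph V} {S T : Finset V} (h : S ⊆ T) (v : V) :
    dg G S v ≤ dg G T v := card_le_card (filter_subset_filter _ h)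

/-- Gadgets with three ports: the maximum `k`-independent sets have `h + 1` elements, contain the
ports, which are saturated, and there is a `k`-independent set of size `h` that avoids the
ports. -/
structure Gad (k h : ℕ) {W : Type*} [Fintype W] (G : SimpleGraph W) (port : Fin 3 → W) :
    Prop where
  inj : Function.Injective port
  le : ∀ S, KInd k G S → S.card ≤ h + 1
  sat : ∀ S, KInd k G S → S.card = h + 1 → ∀ i, port i ∈ S ∧ k ≤ dg G S (port i)
  lo : ∃ S, KInd k G S ∧ S.card = h ∧ ∀ i, port i ∉ S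
  hi : ∃ S, KInd k G S ∧ S.card = h + 1

/-! ### Leaves -/

/-- Add `t` leaves to every vertex. -/
def leafG {W : Type*} (G : SimpleGraph W) (t : ℕ) : SimpleGraph (W × Fin (t + 1)) where
  Adj x y := (x.2 = 0 ∧ y.2 = 0 ∧ G.Adj x.1 y.1) ∨
    (x.1 = y.1 ∧ ((x.2 = 0 ∧ y.2 ≠ 0) ∨ (x.2 ≠ 0 ∧ y.2 = 0)))
  symm := ⟨fun x y h => by
    rcases h with ⟨h1, h2, h3⟩ | ⟨h1, h2 | h2⟩
    · exact Or.inl ⟨h2, h1, h3.symm⟩
    · exact Or.inr ⟨h1.symm, Or.inr h2.symm⟩
    · exact Or.inr ⟨h1.symm, Or.inl h2.symm⟩⟩
  loopless := ⟨fun x h => by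
    rcases h with ⟨h1, h2, h3⟩ | ⟨h1, h2 | h2⟩
    · exact G.loopless.irrefl _ h3
    · exact h2.2 h2.1
    · exact h2.1 h2.2⟩

section leaf

variable {W : Type*} [Fintype W] (G : SimpleGraph W) (t : ℕ)

theorem card_ne0 : (univ.filter fun i : Fin (t + 1) => i ≠ 0).card = t := by
  rw [filter_ne' univ 0, card_erase_of_mem (mem_univ _), card_univ, Fintype.card_fin]
  rfl

theorem leaf_ge {S : Finset W} {S' : Finset (W × Fin (t + 1))} {x : W}
    (h1 : ∀ i, (x, i) ∈ S') (h2 : ∀ y ∈ S, (y, 0) ∈ S') :
    t + dg G S x ≤ dg (leafG G t) S' (x, 0) := by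
  have e : ((univ.filter fun i : Fin (t + 1) => i ≠ 0).image (fun i => (x, i)) ∪
      (S.filter fun w => G.Adj x w).image (fun y => (y, (0 : Fin (t + 1))))).card =
      t + dg G S x := by
    rw [card_union_of_disjoint, card_image_of_injective, card_image_of_injective, card_ne0]
    · rfl
    · intro a b h; exact congrArg Prod.fst h
    · intro a b h; exact congrArg Prod.snd h
    · rw [disjoint_left]
      intro a ha hb
      rw [mem_image] at ha hb
      obtain ⟨i, hi, rfl⟩ := ha
      obtain ⟨y, _, hy⟩ := hb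
      exact (mem_filter.1 hi).2 (congrArg Prod.snd hy).symm
  rw [← e]
  refine card_le_card fun a ha => ?_
  rw [mem_union, mem_image, mem_image] at ha
  rw [mem_filter]
  rcases ha with ⟨i, hi, rfl⟩ | ⟨y, hy, rfl⟩
  · exact ⟨h1 i, Or.inr ⟨rfl, Or.inl ⟨rfl, (mem_filter.1 hi).2⟩⟩⟩
  · exact ⟨h2 y (mem_filter.1 hy).1, Or.inl ⟨rfl, rfl, (mem_filter.1 hy).2⟩⟩

theorem leaf_le {S : Finset W} {x : W} {S' : Finset (W × Fin (t + 1))}
    (h2 : ∀ y, (y, 0) ∈ S' → y ∈ S) :
    dg (leafG G t) S' (x, 0) ≤ t + dg G S x := by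
  have e : ((univ.filter fun i : Fin (t + 1) => i ≠ 0).image (fun i => (x, i)) ∪
      (S.filter fun w => G.Adj x w).image (fun y => (y, (0 : Fin (t + 1))))).card ≤
      t + dg G S x := by
    refine (card_union_le _ _).trans ?_
    refine Nat.add_le_add (card_image_le.trans (card_ne0 t).le) card_image_le
  refine le_trans (card_le_card fun a ha => ?_) e
  rw [mem_filter] at ha
  rw [mem_union, mem_image, mem_image]
  obtain ⟨y, i⟩ := a
  obtain ⟨h, h3 | h3⟩ := ha
  · obtain ⟨_, h4, h5⟩ := h3
    simp only at h4 h5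
    subst h4
    exact Or.inr ⟨y, mem_filter.2 ⟨h2 y h, h5⟩, rfl⟩
  · obtain ⟨h4, h5 | h5⟩ := h3
    · simp only at h4 h5
      subst h4
      exact Or.inl ⟨i, mem_filter.2 ⟨mem_univ _, h5.2⟩, rfl⟩
    · exact absurd rfl h5.1

theorem leaf_le1 {x : W} {i : Fin (t + 1)} (hi : i ≠ 0) (S' : Finset (W × Fin (t + 1))) :
    dg (leafG G t) S' (x, i) ≤ 1 := by
  unfold dg
  rw [card_le_one]
  intro a ha b hb
  rw [mem_filter] at ha hb
  have key : ∀ c : W × Fin (t + 1), (leafG G t).Adj (x, i) c → c = (x, 0) := by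
    intro c hc
    obtain ⟨y, j⟩ := c
    rcases hc with ⟨h1, _⟩ | ⟨h1, h2 | h2⟩
    · exact absurd h1 hi
    · exact absurd h2.1 hi
    · exact Prod.ext h1.symm h2.2
  rw [key a ha.2, key b hb.2]

variable {G} {k h : ℕ} {port : Fin 3 → W}

/-- The extension of a set by all leaves. -/
noncomputable def ext (t : ℕ) (S : Finset W) : Finset (W × Fin (t + 1)) :=
  univ ×ˢ (univ.filter fun i : Fin (t + 1) => i ≠ 0) ∪ S ×ˢ {0}

theorem mem_ext {S : Finset W} {x : W} {i : Fin (t + 1)} : (x, i) ∈ ext t S ↔ i ≠ 0 ∨ x ∈ S := by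
  unfold ext
  rw [mem_union, mem_product, mem_product, mem_filter, mem_singleton]
  constructor
  · rintro (h | h)
    · exact Or.inl h.2.2
    · exact Or.inr h.1
  · intro h
    by_cases hi : i = 0
    · exact Or.inr ⟨h.resolve_left (fun g => g hi), hi⟩
    · exact Or.inl ⟨mem_univ _, mem_univ _, hi⟩

theorem card_ext (S : Finset W) : (ext t S).card = t * Fintype.card W + S.card := by
  unfold ext
  rw [card_union_of_disjoint, card_product, card_product, card_ne0, card_singleton, card_univ]
  · ring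
  · rw [disjoint_left]
    rintro ⟨x, i⟩ ha hb
    rw [mem_product, mem_filter] at ha
    rw [mem_product, mem_singleton] at hb
    exact ha.2.2 hb.2

theorem kind_ext {S : Finset W} (hS : KInd k G S) : KInd (k + t) (leafG G t) (ext t S) := by
  rintro ⟨x, i⟩ hx
  by_cases hi : i = 0
  · subst hi
    have hxS : x ∈ S := by
      rcases (mem_ext t).1 hx with h | h
      · exact absurd rfl h
      · exact h
    refine (leaf_le G t (S := S) fun y hy => ?_).trans ?_
    · rcases (mem_ext t).1 hy with h | h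
      · exact absurd rfl h
      · exact h
    · have := hS x hxS
      omega
  · have h1 := leaf_le1 G t (x := x) hi (ext t S)
    have ht : 0 < t := by
      by_contra h0
      have : t = 0 := by omega
      subst this
      exact hi (Fin.ext (by omega))
    omega

theorem Gad.leaf (H : Gad k h G port) : Gad (k + t) (h + t * Fintype.card W) (leafG G t)
    (fun i => (port i, 0)) := by
  -- the full vertices of a set
  have main : ∀ S' : Finset (W × Fin (t + 1)), KInd (k + t) (leafG G t) S' →
      ∃ S : Finset W, (∀ x ∈ S, ∀ i, (x, i) ∈ S') ∧ KInd k G S ∧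
        S'.card ≤ t * Fintype.card W + S.card := by
    intro S' hS'
    refine ⟨univ.filter fun x => ∀ i, (x, i) ∈ S', fun x hx => (mem_filter.1 hx).2, ?_, ?_⟩
    · intro x hx
      have h1 := leaf_ge G t (x := x) (S := univ.filter fun x => ∀ i, (x, i) ∈ S') (S' := S')
        (mem_filter.1 hx).2 (fun y hy => (mem_filter.1 hy).2 0)
      have h2 := hS' (x, 0) ((mem_filter.1 hx).2 0)
      omega
    · have h1 : S'.card = ∑ x : W, (S'.filter fun p => p.1 = x).card :=
        card_eq_sum_card_fiberwise fun p _ => mem_univ _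
      have h2 : ∀ x : W, (S'.filter fun p => p.1 = x).card ≤
          t + if (∀ i, (x, i) ∈ S') then 1 else 0 := by
        intro x
        split_ifs with hx
        · refine (card_le_card_of_injOn (t := (univ : Finset (Fin (t + 1)))) Prod.snd
            (fun _ _ => mem_coe.2 (mem_univ _)) ?_).trans (by simp)
          intro p hp q hq hpq
          rw [mem_coe, mem_filter] at hp hq
          exact Prod.ext (hp.2.trans hq.2.symm) hpq
        · rw [not_forall] at hx
          obtain ⟨i, hi⟩ := hx
          refine (card_le_card_of_injOn (t := (univ : Finset (Fin (t + 1))).erase i) Prod.snd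
            (fun p hp => ?_) ?_).trans ?_
          · rw [mem_coe, mem_erase]
            rw [mem_coe, mem_filter] at hp
            refine ⟨fun e => hi ?_, mem_univ _⟩
            rw [← e, ← hp.2]; exact hp.1
          · intro p hp q hq hpq
            rw [mem_coe, mem_filter] at hp hq
            exact Prod.ext (hp.2.trans hq.2.symm) hpq
          · rw [card_erase_of_mem (mem_univ _), card_univ, Fintype.card_fin]
            omega
      rw [h1]
      refine (sum_le_sum fun x _ => h2 x).trans ?_
      rw [sum_add_distrib, sum_const, card_univ, smul_eq_mul, card_filter]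
      exact Nat.add_le_add (by rw [Nat.mul_comm]) le_rfl
  refine ⟨fun i j hij => H.inj (congrArg Prod.fst hij), ?_, ?_, ?_, ?_⟩
  · intro S' hS'
    obtain ⟨S, _, h2, h3⟩ := main S' hS'
    have := H.le S h2
    omega
  · intro S' hS' hc i
    obtain ⟨S, h1, h2, h3⟩ := main S' hS'
    have h4 := H.le S h2
    obtain ⟨h5, h6⟩ := H.sat S h2 (by omega) i
    refine ⟨h1 _ h5 0, ?_⟩
    have h7 := leaf_ge G t (h1 _ h5) (fun y hy => h1 y hy 0)
    omega
  · obtain ⟨S, h1, h2, h3⟩ := H.lo
    refine ⟨ext t S, kind_ext t h1, by rw [card_ext, h2]; ring, fun i hi => ?_⟩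
    rcases (mem_ext t).1 hi with h | h
    · exact h rfl
    · exact h3 i h
  · obtain ⟨S, h1, h2⟩ := H.hi
    exact ⟨ext t S, kind_ext t h1, by rw [card_ext, h2]; ring⟩

end leaf

end Pool.Agent.V11256.KI
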