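import Pool.Agent.V11256.KI.Big
import Pool.Agent.H648R3.WC.Nae
import Pool.Agent.H648R3.WC.Next

/-!
# Independent sets and monotone not-all-equal satisfiability
-/

set_option autoImplicit false
set_option linter.unusedSectionVars false
set_option linter.unusedFintypeInType false
set_option linter.unusedDecidableInType false

namespace Pool.Agent.V11256.KI

open Finset Pool.Agent.NPC Pool.Agent.NPC.WC648 Pool.Agent.H648R3.WC

/-- The variable at the occurrence `o`. -/
def val (φ : List (NV × NV × NV)) (o : ℕ) : NV :=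
  if o % 3 = 0 then (φ.getD (o / 3) ((0, 0, false), (0, 0, false), (0, 0, false))).1
  else if o % 3 = 1 then (φ.getD (o / 3) ((0, 0, false), (0, 0, false), (0, 0, false))).2.1
  else (φ.getD (o / 3) ((0, 0, false), (0, 0, false), (0, 0, false))).2.2

/-- The rotation in the clauses. -/
def tr (o : ℕ) : ℕ := 3 * (o / 3) + (o % 3 + 1) % 3

/-- The number of occurrences. -/
abbrev oN (φ : List (NV × NV × NV)) : ℕ := 3 * φ.length

section

variable (φ : List (NV × NV × NV))

/-- The rotation in the clauses. -/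
def tri : Fin (oN φ) ≃ Fin (oN φ) where
  toFun o := ⟨tr o, by
    have h : o.1 < 3 * φ.length := o.2
    change tr o < 3 * φ.length
    unfold tr; omega⟩
  invFun o := ⟨3 * (o.1 / 3) + (o.1 % 3 + 2) % 3, by
    have h : o.1 < 3 * φ.length := o.2
    change 3 * (o.1 / 3) + (o.1 % 3 + 2) % 3 < 3 * φ.length
    omega⟩
  left_inv o := by
    apply Fin.ext
    simp only [tr]
    omega
  right_inv o := by
    apply Fin.ext
    simp only [tr]
    omega

theorem tri_ne (o : Fin (oN φ)) : tri φ o ≠ o := by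
  intro h
  have h1 : tr o = o := congrArg Fin.val h
  unfold tr at h1
  omega

theorem tri_div (o : Fin (oN φ)) : (tri φ o).1 / 3 = o.1 / 3 := by
  change tr o / 3 = o.1 / 3
  unfold tr
  omega

theorem tri_symm_ne (o : Fin (oN φ)) : (tri φ).symm o ≠ o := by
  intro h
  apply tri_ne φ o
  rw [← h, Equiv.apply_symm_apply]
  exact h.symm

theorem tri_symm_div (o : Fin (oN φ)) : ((tri φ).symm o).1 / 3 = o.1 / 3 := by
  have := tri_div φ ((tri φ).symm o)
  rw [Equiv.apply_symm_apply] at this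
  exact this.symm

theorem tri_or {o o' : Fin (oN φ)} (h : o.1 / 3 = o'.1 / 3) (hne : o ≠ o') :
    tri φ o = o' ∨ tri φ o' = o := by
  have hne' : o.1 ≠ o'.1 := fun e => hne (Fin.ext e)
  have : tr o = o' ∨ tr o' = o := by
    unfold tr; omega
  rcases this with h | h
  · exact Or.inl (Fin.ext h)
  · exact Or.inr (Fin.ext h)

/-- The cyclic successor among the occurrences of a variable. -/
noncomputable abbrev pm : Fin (oN φ) ≃ Fin (oN φ) := perm (oN φ) (val φ)

/-- The link function. -/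
noncomputable def Mf : (Fin (oN φ) × Fin 4) × Fin 3 → (Fin (oN φ) × Fin 4) × Fin 3
  | ((o, 0), 0) => ((tri φ o, 0), 1)
  | ((o, 0), 1) => (((tri φ).symm o, 0), 0)
  | ((o, 0), 2) => ((o, 3), 2)
  | ((o, 1), 0) => ((tri φ o, 1), 1)
  | ((o, 1), 1) => (((tri φ).symm o, 1), 0)
  | ((o, 1), 2) => ((o, 2), 2)
  | ((o, 2), 0) => ((o, 3), 0)
  | ((o, 2), 1) => (((pm φ).symm o, 3), 1)
  | ((o, 2), 2) => ((o, 1), 2)
  | ((o, 3), 0) => ((o, 2), 0)
  | ((o, 3), 1) => ((pm φ o, 2), 1)
  | ((o, 3), 2) => ((o, 0), 2)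

/-- The links. -/
noncomputable def lk : Links (Fin (oN φ) × Fin 4) where
  M := Mf φ
  inv := by
    rintro ⟨⟨o, t⟩, i⟩
    fin_cases t <;> fin_cases i <;> simp [Mf]
  ne := by
    rintro ⟨⟨o, t⟩, i⟩
    fin_cases t <;> fin_cases i <;> simp [Mf, tri_ne, tri_symm_ne]

/-- The groups of vertices. -/
def gr : Fin (oN φ) × Fin 4 → (Bool × Fin φ.length) ⊕ Fin (oN φ)
  | (o, 0) => Sum.inl (false, ⟨o / 3, by have h : o.1 < 3 * φ.length := o.2; omega⟩)
  | (o, 1) => Sum.inl (true, ⟨o / 3, by have h : o.1 < 3 * φ.length := o.2; omega⟩)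
  | (o, 2) => Sum.inr o
  | (o, 3) => Sum.inr o

theorem card_groups : Fintype.card ((Bool × Fin φ.length) ⊕ Fin (oN φ)) = 5 * φ.length := by
  rw [Fintype.card_sum, Fintype.card_prod, Fintype.card_bool, Fintype.card_fin, Fintype.card_fin]
  unfold oN
  ring

theorem val_mem {t : NV × NV × NV} {c : ℕ} (h : φ[c]? = some t) :
    val φ (3 * c) = t.1 ∧ val φ (3 * c + 1) = t.2.1 ∧ val φ (3 * c + 2) = t.2.2 := by
  have hg : φ.getD c ((0, 0, false), (0, 0, false), (0, 0, false)) = t := by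
    rw [List.getD_eq_getElem?_getD, h]; rfl
  unfold val
  rw [show (3 * c) % 3 = 0 by omega, show (3 * c) / 3 = c by omega,
    show (3 * c + 1) % 3 = 1 by omega, show (3 * c + 1) / 3 = c by omega,
    show (3 * c + 2) % 3 = 2 by omega, show (3 * c + 2) / 3 = c by omega, hg]
  simp

variable {φ}

theorem nae_of_ind {I : Finset (Fin (oN φ) × Fin 4)} (hI : Ind (lk φ) I)
    (hc : 5 * φ.length ≤ I.card) : NAE φ := by
  classical
  have i00 : ∀ o, (o, 0) ∈ I → (tri φ o, 0) ∉ I := fun o h => hI _ h 0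
  have i10 : ∀ o, (o, 1) ∈ I → (tri φ o, 1) ∉ I := fun o h => hI _ h 0
  have i02 : ∀ o, (o, 0) ∈ I → (o, 3) ∉ I := fun o h => hI _ h 2
  have i12 : ∀ o, (o, 1) ∈ I → (o, 2) ∉ I := fun o h => hI _ h 2
  have i20 : ∀ o, (o, 2) ∈ I → (o, 3) ∉ I := fun o h => hI _ h 0
  have i31 : ∀ o, (o, 3) ∈ I → (pm φ o, 2) ∉ I := fun o h => hI _ h 1
  have hinj : Set.InjOn (gr φ) I := by
    rintro ⟨o, t⟩ h ⟨o', t'⟩ h' e
    rw [mem_coe] at h h'
    have same : ∀ t : Fin 4, (∀ o, (o, t) ∈ I → (tri φ o, t) ∉ I) → (o, t) ∈ I → (o', t) ∈ I →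
        o.1 / 3 = o'.1 / 3 → (o, t) = (o', t) := by
      intro t ht h1 h2 h3
      by_contra hne
      have hne' : o ≠ o' := fun e => hne (by rw [e])
      rcases tri_or φ h3 hne' with h4 | h4
      · exact ht o h1 (by rw [h4]; exact h2)
      · exact ht o' h2 (by rw [h4]; exact h1)
    fin_cases t <;> fin_cases t' <;> simp [gr] at e h h' ⊢
    · simpa using same 0 i00 h h' e
    · simpa using same 1 i10 h h' e
    · exact e
    · subst e; exact i20 _ h h'
    · subst e; exact i20 _ h' h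
    · exact e
  have himg : I.image (gr φ) = univ := by
    rw [← card_eq_iff_eq_univ, card_groups, card_image_of_injOn hinj]
    refine le_antisymm ?_ hc
    rw [← card_image_of_injOn hinj, ← card_groups φ]
    exact card_le_univ _
  have hA : ∀ c : Fin φ.length, ∃ o, (o, 0) ∈ I ∧ o.1 / 3 = c := by
    intro c
    have : (Sum.inl (false, c) : (Bool × Fin φ.length) ⊕ Fin (oN φ)) ∈ I.image (gr φ) := by
      rw [himg]; exact mem_univ _
    rw [mem_image] at this
    obtain ⟨⟨o, t⟩, h, e⟩ := this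
    fin_cases t <;> simp [gr] at e h
    exact ⟨o, h, congrArg Fin.val e⟩
  have hB : ∀ c : Fin φ.length, ∃ o, (o, 1) ∈ I ∧ o.1 / 3 = c := by
    intro c
    have : (Sum.inl (true, c) : (Bool × Fin φ.length) ⊕ Fin (oN φ)) ∈ I.image (gr φ) := by
      rw [himg]; exact mem_univ _
    rw [mem_image] at this
    obtain ⟨⟨o, t⟩, h, e⟩ := this
    fin_cases t <;> simp [gr] at e h
    exact ⟨o, h, congrArg Fin.val e⟩
  have hT : ∀ o, (o, 2) ∈ I ∨ (o, 3) ∈ I := by
    intro o
    have : (Sum.inr o : (Bool × Fin φ.length) ⊕ Fin (oN φ)) ∈ I.image (gr φ) := by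
      rw [himg]; exact mem_univ _
    rw [mem_image] at this
    obtain ⟨⟨o', t⟩, h, e⟩ := this
    fin_cases t <;> simp [gr] at e h
    · subst e; exact Or.inl h
    · subst e; exact Or.inr h
  -- the assignment
  set y : Fin (oN φ) → Bool := fun o => decide ((o, 2) ∈ I) with hy
  have hyi : ∀ o, y (pm φ o) = true → y o = true := by
    intro o h
    simp only [hy, decide_eq_true_eq] at h ⊢
    rcases hT o with h1 | h1
    · exact h1
    · exact absurd h (i31 o h1)
  have hyc : ∀ o, y (pm φ o) = y o := by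
    have hsub : (univ.filter fun o => y (pm φ o) = true) ⊆ univ.filter fun o => y o = true :=
      fun o ho => mem_filter.2 ⟨mem_univ _, hyi o (mem_filter.1 ho).2⟩
    have hcard : (univ.filter fun o => y (pm φ o) = true).card =
        (univ.filter fun o => y o = true).card := by
      refine card_bij (fun o _ => pm φ o) (fun o ho => ?_) (fun o _ o' _ h => (pm φ).injective h)
        (fun o ho => ?_)
      · exact mem_filter.2 ⟨mem_univ _, (mem_filter.1 ho).2⟩
      · refine ⟨(pm φ).symm o, mem_filter.2 ⟨mem_univ _, ?_⟩, Equiv.apply_symm_apply _ _⟩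
        rw [Equiv.apply_symm_apply]; exact (mem_filter.1 ho).2
    have heq := eq_of_subset_of_card_le hsub hcard.ge
    intro o
    rw [Bool.eq_iff_iff]
    have := Finset.ext_iff.1 heq o
    simpa using this
  have hconst := perm_const (f := val φ) hyc
  refine ⟨fun x => decide (∃ o : Fin (oN φ), val φ o = x ∧ y o = true), ?_⟩
  have hτ : ∀ o : Fin (oN φ), (decide (∃ o' : Fin (oN φ), val φ o' = val φ o ∧ y o' = true)) =
      y o := by
    intro o
    cases hyo : y o
    · rw [decide_eq_false_iff_not]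
      rintro ⟨o', h1, h2⟩
      rw [hconst o' o h1, hyo] at h2
      simp at h2
    · rw [decide_eq_true_eq]
      exact ⟨o, rfl, hyo⟩
  intro t ht hall
  obtain ⟨c, hct⟩ := List.getElem?_of_mem ht
  have hclt : c < φ.length := by
    by_contra h
    rw [List.getElem?_eq_none (by omega)] at hct
    simp at hct
  obtain ⟨v0, v1, v2⟩ := val_mem φ hct
  obtain ⟨o, ho, hoc⟩ := hA ⟨c, hclt⟩
  obtain ⟨o', ho', hoc'⟩ := hB ⟨c, hclt⟩
  have h1 : y o = true := by
    simp only [hy, decide_eq_true_eq]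
    exact (hT o).resolve_right (i02 o ho)
  have h2 : y o' = false := by
    simp only [hy, decide_eq_false_iff_not]
    exact i12 o' ho'
  have hv : ∀ o : Fin (oN φ), o.1 / 3 = c → val φ o = t.1 ∨ val φ o = t.2.1 ∨
      val φ o = t.2.2 := by
    intro o hoc
    have h3 : o.1 = 3 * c ∨ o.1 = 3 * c + 1 ∨ o.1 = 3 * c + 2 := by omega
    rcases h3 with h | h | h
    · left; rw [h, v0]
    · right; left; rw [h, v1]
    · right; right; rw [h, v2]
  have e1 := hτ o
  have e2 := hτ o'
  rw [h1] at e1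
  rw [h2] at e2
  have key : ∀ o : Fin (oN φ), o.1 / 3 = c →
      decide (∃ o' : Fin (oN φ), val φ o' = val φ o ∧ y o' = true) =
      decide (∃ o' : Fin (oN φ), val φ o' = t.1 ∧ y o' = true) := by
    intro o hoc
    rcases hv o hoc with h | h | h
    · rw [h]
    · rw [h]; exact hall.1.symm
    · rw [h]; exact (hall.1.trans hall.2).symm
  rw [key o hoc] at e1
  rw [key o' hoc'] at e2
  rw [e1] at e2
  simp at e2

theorem ind_of_nae (h : NAE φ) : ∃ I : Finset (Fin (oN φ) × Fin 4), Ind (lk φ) I ∧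
    5 * φ.length ≤ I.card := by
  classical
  obtain ⟨τ, hτ⟩ := h
  have hex : ∀ (b : Bool) (c : Fin φ.length), ∃ o : Fin (oN φ), o.1 / 3 = c ∧
      τ (val φ o) = b := by
    intro b c
    have hct : φ[c.1]? = some φ[c.1] := List.getElem?_eq_getElem c.2
    obtain ⟨v0, v1, v2⟩ := val_mem φ hct
    have h1 := hτ _ (List.getElem_mem c.2)
    have hN : 3 * c.1 + 2 < oN φ := by have := c.2; unfold oN; omega
    by_contra hn
    push Not at hn
    have n0 := hn ⟨3 * c.1, by omega⟩ (by simp only; omega)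
    have n1 := hn ⟨3 * c.1 + 1, by omega⟩ (by simp only; omega)
    have n2 := hn ⟨3 * c.1 + 2, by omega⟩ (by simp only; omega)
    simp only at n0 n1 n2
    rw [v0] at n0
    rw [v1] at n1
    rw [v2] at n2
    apply h1
    cases b <;> simp_all
  choose oc hoc1 hoc2 using hex
  have hcl : ∀ o : Fin (oN φ), o.1 / 3 < φ.length := fun o => by
    have h : o.1 < 3 * φ.length := o.2
    omega
  set P : Fin (oN φ) × Fin 4 → Prop := fun p => match p.2 with
    | 0 => p.1 = oc true ⟨p.1.1 / 3, hcl p.1⟩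
    | 1 => p.1 = oc false ⟨p.1.1 / 3, hcl p.1⟩
    | 2 => τ (val φ p.1) = true
    | 3 => τ (val φ p.1) = false with hP
  have hcyc : ∀ o, τ (val φ (pm φ o)) = τ (val φ o) := by
    intro o
    have : val φ (pm φ o) = val φ o := nxtf_class o.2
    rw [this]
  have hcyc' : ∀ o, τ (val φ ((pm φ).symm o)) = τ (val φ o) := by
    intro o
    have := hcyc ((pm φ).symm o)
    rw [Equiv.apply_symm_apply] at this
    exact this.symm
  have hkey : ∀ b o, o = oc b ⟨o.1 / 3, hcl o⟩ → τ (val φ o) = b := by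
    intro b o ho
    rw [ho]
    exact hoc2 b _
  have htri : ∀ b o o', o'.1 / 3 = o.1 / 3 → o = oc b ⟨o.1 / 3, hcl o⟩ →
      o' = oc b ⟨o'.1 / 3, hcl o'⟩ → o' = o := by
    intro b o o' hd h1 h2
    rw [h1, h2]
    congr 1
    exact Fin.ext hd
  refine ⟨univ.filter P, ?_, ?_⟩
  · rintro ⟨o, t⟩ h i h'
    rw [mem_filter] at h h'
    obtain ⟨_, h⟩ := h
    obtain ⟨_, h'⟩ := h'
    fin_cases t <;> fin_cases i <;> simp [hP, lk, Mf] at h h'
    · exact tri_ne φ o (htri true o _ (tri_div φ o) h h')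
    · exact tri_symm_ne φ o (htri true o _ (tri_symm_div φ o) h h')
    · rw [hkey true o h] at h'; simp at h'
    · exact tri_ne φ o (htri false o _ (tri_div φ o) h h')
    · exact tri_symm_ne φ o (htri false o _ (tri_symm_div φ o) h h')
    · rw [hkey false o h] at h'; simp at h'
    · rw [h] at h'; simp at h'
    · rw [hcyc', h] at h'; simp at h'
    · rw [hkey false o h'] at h; simp at h
    · rw [h] at h'; simp at h'
    · rw [hcyc, h] at h'; simp at h'
    · rw [hkey true o h'] at h; simp at h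
  · rw [← card_groups φ, ← card_univ]
    refine (card_le_card ?_).trans (card_image_le (s := univ.filter P) (f := gr φ))
    intro x _
    rw [mem_image]
    rcases x with ⟨b, c⟩ | o
    · have hc : (⟨(oc (!b) c).1 / 3, hcl _⟩ : Fin φ.length) = c := Fin.ext (hoc1 _ _)
      cases b
      · refine ⟨(oc true c, 0), mem_filter.2 ⟨mem_univ _, ?_⟩, ?_⟩
        · change oc true c = oc true ⟨(oc true c).1 / 3, hcl _⟩
          rw [show (⟨(oc true c).1 / 3, hcl _⟩ : Fin φ.length) = c from Fin.ext (hoc1 _ _)]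
        · change Sum.inl (false, (⟨(oc true c).1 / 3, hcl _⟩ : Fin φ.length)) = _
          rw [show (⟨(oc true c).1 / 3, hcl _⟩ : Fin φ.length) = c from Fin.ext (hoc1 _ _)]
      · refine ⟨(oc false c, 1), mem_filter.2 ⟨mem_univ _, ?_⟩, ?_⟩
        · change oc false c = oc false ⟨(oc false c).1 / 3, hcl _⟩
          rw [show (⟨(oc false c).1 / 3, hcl _⟩ : Fin φ.length) = c from Fin.ext (hoc1 _ _)]
        · change Sum.inl (true, (⟨(oc false c).1 / 3, hcl _⟩ : Fin φ.length)) = _
          rw [show (⟨(oc false c).1 / 3, hcl _⟩ : Fin φ.length) = c from Fin.ext (hoc1 _ _)]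
    · cases ht : τ (val φ o)
      · exact ⟨(o, 3), mem_filter.2 ⟨mem_univ _, ht⟩, rfl⟩
      · exact ⟨(o, 2), mem_filter.2 ⟨mem_univ _, ht⟩, rfl⟩

theorem ind_iff : (∃ I : Finset (Fin (oN φ) × Fin 4), Ind (lk φ) I ∧ 5 * φ.length ≤ I.card) ↔
    NAE φ := ⟨fun ⟨_, h1, h2⟩ => nae_of_ind h1 h2, ind_of_nae⟩

end

end Pool.Agent.V11256.KI
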