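import Pool.Agent.V11256.KI.Gadgets
import Pool.Agent.V11256.KI.NaeG
import Pool.Agent.V11256.ST.Mem

/-!
# The reduction as a function on lists
-/

set_option autoImplicit false
set_option linter.unusedSectionVars false
set_option linter.unusedFintypeInType false
set_option linter.unusedDecidableInType false

namespace Pool.Agent.V11256.KI

open Finset Pool.Agent.NPC Pool.Agent.NPC.WC648 Pool.Agent.H648R3.WC
open Pool.Agent.V11256.ST (LG)

abbrev Φ : Type := List (NV × NV × NV)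

/-- The next occurrence. -/
def nx (φ : Φ) (o : ℕ) : ℕ := nxtf (3 * φ.length) (val φ) o

/-- The links at an occurrence. -/
def lks (C P0 P1 P2 : ℕ) (φ : Φ) (o : ℕ) : List (ℕ × ℕ) :=
  [((4 * o) * C + P0, (4 * tr o) * C + P1), ((4 * o) * C + P2, (4 * o + 3) * C + P2),
   ((4 * o + 1) * C + P0, (4 * tr o + 1) * C + P1), ((4 * o + 1) * C + P2, (4 * o + 2) * C + P2),
   ((4 * o + 2) * C + P0, (4 * o + 3) * C + P0), ((4 * o + 3) * C + P1, (4 * nx φ o + 2) * C + P1)]

/-- The vertices. -/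
def VL (C : ℕ) (φ : Φ) : List ℕ := List.range (12 * φ.length * C)

/-- The edges. -/
def EL (C : ℕ) (ce : List (ℕ × ℕ)) (P Q : ℕ × ℕ × ℕ) (φ : Φ) : List (ℕ × ℕ) :=
  ((List.range (12 * φ.length)).flatMap fun u => ce.map fun e => (u * C + e.1, u * C + e.2)) ++
  ((List.range (3 * φ.length)).flatMap fun o => lks C P.1 P.2.1 P.2.2 φ o ++
    lks C Q.1 Q.2.1 Q.2.2 φ o)

section

variable {W Y : Type} [Fintype W] [Fintype Y] (G : SimpleGraph W)
  (J : SimpleGraph Y) (w : Bool → Y) (df : W → ℕ) (port : Fin 3 → W)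

/-- Numbers of the vertices of a cell. -/
noncomputable def cc : Cell W Y df ≃ Fin (Fintype.card (Cell W Y df)) := Fintype.equivFin _

/-- Edges in a cell. -/
noncomputable def cE : List (ℕ × ℕ) := by
  classical
  exact ((univ.filter fun p : Cell W Y df × Cell W Y df => cadj G J w df p.1 p.2).toList).map
    fun p => ((cc df p.1).1, (cc df p.2).1)

/-- The ports. -/
noncomputable def pc (s : Bool) : ℕ × ℕ × ℕ :=
  ((cc (Y := Y) df (Sum.inl (s, port 0))).1, (cc (Y := Y) df (Sum.inl (s, port 1))).1,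
    (cc (Y := Y) df (Sum.inl (s, port 2))).1)

variable (φ : Φ)

/-- The name of a vertex. -/
noncomputable def cd (x : (Fin (oN φ) × Fin 4) × Cell W Y df) : ℕ :=
  (4 * x.1.1.1 + x.1.2.1) * Fintype.card (Cell W Y df) + (cc df x.2).1

/-- The reduction. -/
noncomputable def red : LG :=
  (VL (Fintype.card (Cell W Y df)) φ, EL (Fintype.card (Cell W Y df)) (cE G J w df)
    (pc (Y := Y) df port false) (pc (Y := Y) df port true) φ)

theorem dq' {q a b a' b' : ℕ} (hb : b < q) (hb' : b' < q) (h : a * q + b = a' * q + b') :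
    a = a' ∧ b = b' := ST.dq hb hb' h

theorem cd_inj : Function.Injective (cd (Y := Y) (df := df) φ) := by
  rintro ⟨⟨o, t⟩, c⟩ ⟨⟨o', t'⟩, c'⟩ h
  obtain ⟨h1, h2⟩ := dq' (cc df c).2 (cc df c').2 h
  have h3 : c = c' := (cc df).injective (Fin.ext h2)
  simp only at h1
  have h4 : o.1 = o'.1 := by have := t.2; have := t'.2; omega
  have h5 : t.1 = t'.1 := by omega
  rw [h3, Fin.ext h4, Fin.ext h5]

theorem cd_mem (x : (Fin (oN φ) × Fin 4) × Cell W Y df) :
    cd df φ x ∈ VL (Fintype.card (Cell W Y df)) φ := by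
  obtain ⟨⟨o, t⟩, c⟩ := x
  unfold VL cd
  rw [List.mem_range]
  simp only
  have h1 : o.1 < 3 * φ.length := o.2
  have h2 := t.2
  have h3 := (cc df c).2
  have h4 : 4 * o.1 + t.1 + 1 ≤ 12 * φ.length := by omega
  calc (4 * o.1 + t.1) * Fintype.card (Cell W Y df) + (cc df c).1
      < (4 * o.1 + t.1) * Fintype.card (Cell W Y df) + Fintype.card (Cell W Y df) :=
        Nat.add_lt_add_left h3 _
    _ = (4 * o.1 + t.1 + 1) * Fintype.card (Cell W Y df) := by ring
    _ ≤ _ := Nat.mul_le_mul_right _ h4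

theorem cd_surj {n : ℕ} (hn : n ∈ VL (Fintype.card (Cell W Y df)) φ) :
    ∃ x : (Fin (oN φ) × Fin 4) × Cell W Y df, cd df φ x = n := by
  unfold VL at hn
  rw [List.mem_range] at hn
  set C := Fintype.card (Cell W Y df) with hC
  have hC0 : 0 < C := by
    rcases Nat.eq_zero_or_pos C with h | h
    · rw [h] at hn; omega
    · exact h
  have h1 : n / C < 12 * φ.length := (Nat.div_lt_iff_lt_mul hC0).2 hn
  have h2 : n % C < C := Nat.mod_lt _ hC0
  refine ⟨((⟨n / C / 4, by change _ < 3 * φ.length; omega⟩, ⟨n / C % 4, by omega⟩),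
    (cc df).symm ⟨n % C, h2⟩), ?_⟩
  unfold cd
  simp only [Equiv.apply_symm_apply]
  rw [show 4 * (n / C / 4) + n / C % 4 = n / C by omega, ← hC]
  exact Nat.div_add_mod' n C

theorem mem_cE {e : ℕ × ℕ} : e ∈ cE G J w df ↔ ∃ x y : Cell W Y df, cadj G J w df x y ∧
    e = ((cc df x).1, (cc df y).1) := by
  classical
  unfold cE
  rw [List.mem_map]
  constructor
  · rintro ⟨p, hp, rfl⟩
    rw [mem_toList, mem_filter] at hp
    exact ⟨p.1, p.2, hp.2, rfl⟩
  · rintro ⟨x, y, h, rfl⟩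
    exact ⟨(x, y), by rw [mem_toList, mem_filter]; exact ⟨mem_univ _, h⟩, rfl⟩

/-- the link edges, abstractly -/
theorem mem_lks_iff (s : Bool) {e : ℕ × ℕ} (o : Fin (oN φ)) :
    e ∈ lks (Fintype.card (Cell W Y df)) (pc (Y := Y) df port s).1 (pc (Y := Y) df port s).2.1
      (pc (Y := Y) df port s).2.2 φ o ↔
    e = (cd (Y := Y) df φ ((o, 0), Sum.inl (s, port 0)),
      cd (Y := Y) df φ ((tri φ o, 0), Sum.inl (s, port 1))) ∨
    e = (cd (Y := Y) df φ ((o, 0), Sum.inl (s, port 2)),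
      cd (Y := Y) df φ ((o, 3), Sum.inl (s, port 2))) ∨
    e = (cd (Y := Y) df φ ((o, 1), Sum.inl (s, port 0)),
      cd (Y := Y) df φ ((tri φ o, 1), Sum.inl (s, port 1))) ∨
    e = (cd (Y := Y) df φ ((o, 1), Sum.inl (s, port 2)),
      cd (Y := Y) df φ ((o, 2), Sum.inl (s, port 2))) ∨
    e = (cd (Y := Y) df φ ((o, 2), Sum.inl (s, port 0)),
      cd (Y := Y) df φ ((o, 3), Sum.inl (s, port 0))) ∨
    e = (cd (Y := Y) df φ ((o, 3), Sum.inl (s, port 1)),
      cd (Y := Y) df φ ((pm φ o, 2), Sum.inl (s, port 1))) := by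
  unfold lks
  simp only [List.mem_cons, List.not_mem_nil, or_false]
  exact Iff.rfl

theorem EL_sound {e : ℕ × ℕ} (he : e ∈ (red G J w df port φ).2) :
    ∃ x y : (Fin (oN φ) × Fin 4) × Cell W Y df, e = (cd df φ x, cd df φ y) ∧
      (big G J w df port (lk φ)).Adj x y := by
  change e ∈ EL _ _ _ _ _ at he
  unfold EL at he
  rw [List.mem_append, List.mem_flatMap, List.mem_flatMap] at he
  rcases he with ⟨u, hu, he⟩ | ⟨o, ho, he⟩
  · rw [List.mem_range] at hu
    rw [List.mem_map] at he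
    obtain ⟨e', he', rfl⟩ := he
    obtain ⟨x, y, h, rfl⟩ := (mem_cE G J w df).1 he'
    refine ⟨((⟨u / 4, by change _ < 3 * φ.length; omega⟩, ⟨u % 4, by omega⟩), x),
      ((⟨u / 4, by change _ < 3 * φ.length; omega⟩, ⟨u % 4, by omega⟩), y), ?_,
      Or.inl ⟨rfl, h⟩⟩
    unfold cd
    simp only
    rw [show 4 * (u / 4) + u % 4 = u by omega]
  · rw [List.mem_range] at ho
    have key : ∀ s : Bool, e ∈ lks (Fintype.card (Cell W Y df)) (pc (Y := Y) df port s).1
        (pc (Y := Y) df port s).2.1 (pc (Y := Y) df port s).2.2 φ o →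
        ∃ x y : (Fin (oN φ) × Fin 4) × Cell W Y df, e = (cd df φ x, cd df φ y) ∧
      (big G J w df port (lk φ)).Adj x y := by
      intro s h
      rcases (mem_lks_iff df port φ s ⟨o, ho⟩).1 h with h | h | h | h | h | h
      · exact ⟨_, _, h, Or.inr ⟨s, 0, 1, rfl, rfl, rfl⟩⟩
      · exact ⟨_, _, h, Or.inr ⟨s, 2, 2, rfl, rfl, rfl⟩⟩
      · exact ⟨_, _, h, Or.inr ⟨s, 0, 1, rfl, rfl, rfl⟩⟩
      · exact ⟨_, _, h, Or.inr ⟨s, 2, 2, rfl, rfl, rfl⟩⟩
      · exact ⟨_, _, h, Or.inr ⟨s, 0, 0, rfl, rfl, rfl⟩⟩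
      · exact ⟨_, _, h, Or.inr ⟨s, 1, 1, rfl, rfl, rfl⟩⟩
    rw [List.mem_append] at he
    rcases he with he | he
    · exact key false he
    · exact key true he

theorem EL_complete {x y : (Fin (oN φ) × Fin 4) × Cell W Y df}
    (h : (big G J w df port (lk φ)).Adj x y) :
    (cd df φ x, cd df φ y) ∈ (red G J w df port φ).2 ∨
    (cd df φ y, cd df φ x) ∈ (red G J w df port φ).2 := by
  change _ ∈ EL _ _ _ _ _ ∨ _ ∈ EL _ _ _ _ _
  rcases h with ⟨h1, h2⟩ | ⟨s, i, i', h1, h2, h3⟩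
  · left
    unfold EL
    rw [List.mem_append, List.mem_flatMap]
    left
    obtain ⟨⟨o, t⟩, c⟩ := x
    obtain ⟨⟨o', t'⟩, c'⟩ := y
    simp only [Prod.mk.injEq] at h1
    obtain ⟨rfl, rfl⟩ := h1
    have h3 : o.1 < 3 * φ.length := o.2
    have h4 := t.2
    refine ⟨4 * o.1 + t.1, List.mem_range.2 (by omega), List.mem_map.2
      ⟨_, (mem_cE G J w df).2 ⟨c, c', h2, rfl⟩, rfl⟩⟩
  · have key : ∀ (o : Fin (oN φ)) (e : ℕ × ℕ), e ∈ lks (Fintype.card (Cell W Y df))
        (pc (Y := Y) df port s).1 (pc (Y := Y) df port s).2.1 (pc (Y := Y) df port s).2.2 φ o →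
        e ∈ EL (Fintype.card (Cell W Y df)) (cE G J w df) (pc (Y := Y) df port false)
          (pc (Y := Y) df port true) φ := by
      intro o e he
      unfold EL
      rw [List.mem_append, List.mem_flatMap, List.mem_flatMap]
      right
      refine ⟨o.1, List.mem_range.2 o.2, ?_⟩
      rw [List.mem_append]
      cases s
      · exact Or.inl he
      · exact Or.inr he
    obtain ⟨⟨o, t⟩, c⟩ := x
    obtain ⟨⟨o', t'⟩, c'⟩ := y
    simp only at h1 h2 h3
    subst h2
    subst h3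
    have hM : Mf φ ((o, t), i) = ((o', t'), i') := h1
    fin_cases t <;> fin_cases i <;> simp only [Mf, Fin.zero_eta, Fin.mk_one, Fin.reduceFinMk,
      Prod.mk.injEq] at hM <;> obtain ⟨⟨rfl, rfl⟩, rfl⟩ := hM
    · exact Or.inl (key o _ ((mem_lks_iff df port φ s o).2 (Or.inl rfl)))
    · refine Or.inr (key ((tri φ).symm o) _ ((mem_lks_iff df port φ s _).2 (Or.inl ?_)))
      rw [Equiv.apply_symm_apply]
      rfl
    · exact Or.inl (key o _ ((mem_lks_iff df port φ s o).2 (Or.inr (Or.inl rfl))))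
    · exact Or.inl (key o _ ((mem_lks_iff df port φ s o).2 (Or.inr (Or.inr (Or.inl rfl)))))
    · refine Or.inr (key ((tri φ).symm o) _ ((mem_lks_iff df port φ s _).2
        (Or.inr (Or.inr (Or.inl ?_)))))
      rw [Equiv.apply_symm_apply]
      rfl
    · exact Or.inl (key o _ ((mem_lks_iff df port φ s o).2 (Or.inr (Or.inr (Or.inr
        (Or.inl rfl))))))
    · exact Or.inl (key o _ ((mem_lks_iff df port φ s o).2 (Or.inr (Or.inr (Or.inr
        (Or.inr (Or.inl rfl)))))))
    · refine Or.inr (key ((pm φ).symm o) _ ((mem_lks_iff df port φ s _).2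
        (Or.inr (Or.inr (Or.inr (Or.inr (Or.inr ?_)))))))
      rw [Equiv.apply_symm_apply]
      rfl
    · exact Or.inr (key o _ ((mem_lks_iff df port φ s o).2 (Or.inr (Or.inr (Or.inr
        (Or.inl rfl))))))
    · exact Or.inr (key o _ ((mem_lks_iff df port φ s o).2 (Or.inr (Or.inr (Or.inr
        (Or.inr (Or.inl rfl)))))))
    · exact Or.inl (key o _ ((mem_lks_iff df port φ s o).2 (Or.inr (Or.inr (Or.inr
        (Or.inr (Or.inr rfl)))))))
    · exact Or.inr (key o _ ((mem_lks_iff df port φ s o).2 (Or.inr (Or.inl rfl))))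

/-- The constructed graph is the graph given by the lists. -/
theorem listIso : Nonempty (big G J w df port (lk φ) ≃g ST.gr (red G J w df port φ)) := by
  refine ⟨⟨Equiv.ofBijective (fun v => ⟨cd df φ v, cd_mem df φ v⟩) ⟨?_, ?_⟩, ?_⟩⟩
  · intro u v h
    exact cd_inj df φ (congrArg Subtype.val h)
  · rintro ⟨n, hn⟩
    obtain ⟨v, hv⟩ := cd_surj df φ hn
    exact ⟨v, Subtype.ext hv⟩
  · intro u v
    simp only [Equiv.ofBijective_apply]
    constructor
    · rintro ⟨_, h | h⟩
      · obtain ⟨u', v', h1, h2⟩ := EL_sound G J w df port φ h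
        simp only [Prod.mk.injEq] at h1
        rw [cd_inj df φ h1.1, cd_inj df φ h1.2]; exact h2
      · obtain ⟨u', v', h1, h2⟩ := EL_sound G J w df port φ h
        simp only [Prod.mk.injEq] at h1
        rw [cd_inj df φ h1.1, cd_inj df φ h1.2]; exact h2.symm
    · intro h
      exact ⟨fun e => h.ne (cd_inj df φ (congrArg Subtype.val e)),
        EL_complete G J w df port φ h⟩

end

/-! ### Polynomial time -/

theorem val_poly {α : Type} [TEnc α] {f : α → Φ} {o : α → ℕ} (h : Poly f) (h' : Poly o) :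
    Poly (fun x => val (f x) (o x)) := by
  unfold val
  have h1 : Poly (fun x => o x % 3) := NPC.Poly.mod h' (NPC.Poly.const 3)
  have h2 : Poly (fun x => o x / 3) := NPC.Poly.div h' (NPC.Poly.const 3)
  have h3 : Poly (fun x => (f x).getD (o x / 3) ((0, 0, false), (0, 0, false), (0, 0, false))) :=
    NPC.Poly.getD h h2 (NPC.Poly.const _)
  exact NPC.Poly.ite (NPC.Poly.decide_eq h1 (NPC.Poly.const 0)) (NPC.Poly.fst h3)
    (NPC.Poly.ite (NPC.Poly.decide_eq h1 (NPC.Poly.const 1)) (NPC.Poly.fst (NPC.Poly.snd h3))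
      (NPC.Poly.snd (NPC.Poly.snd h3)))

attribute [local fun_prop] val_poly

theorem nx_poly {α : Type} [TEnc α] {f : α → Φ} {o : α → ℕ} (h : Poly f) (h' : Poly o) :
    Poly (fun x => nx (f x) (o x)) := by
  unfold nx nxtf
  have u : UPoly (fun x => 3 * (f x).length) := UPoly.mul (UPoly.const 3) (UPoly.length h)
  have h1 : Poly (fun x => (List.range (3 * (f x).length)).filter
      (fun j => decide (o x < j) && decide (val (f x) j = val (f x) (o x)))) :=
    NPC.Poly.filter (l := fun x => List.range (3 * (f x).length))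
      (p := fun x j => decide (o x < j) && decide (val (f x) j = val (f x) (o x))) u.range
      (by fun_prop)
  have h2 : Poly (fun x => (List.range (3 * (f x).length)).filter
      (fun j => decide (val (f x) j = val (f x) (o x)))) :=
    NPC.Poly.filter (l := fun x => List.range (3 * (f x).length))
      (p := fun x j => decide (val (f x) j = val (f x) (o x))) u.range
      (by fun_prop)
  exact NPC.Poly.optGetD (NPC.Poly.head? h1) (NPC.Poly.optGetD (NPC.Poly.head? h2)
    (NPC.Poly.const 0))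

theorem tr_poly {α : Type} [TEnc α] {o : α → ℕ} (h : Poly o) : Poly (fun x => tr (o x)) := by
  unfold tr
  fun_prop

attribute [local fun_prop] nx_poly tr_poly

theorem lks_poly (C P0 P1 P2 : ℕ) {α : Type} [TEnc α] {f : α → Φ} {o : α → ℕ} (h : Poly f)
    (h' : Poly o) : Poly (fun x => lks C P0 P1 P2 (f x) (o x)) := by
  unfold lks
  fun_prop

theorem VL_poly (C : ℕ) : Poly (VL C) := by
  unfold VL
  exact (UPoly.mul (UPoly.mul (UPoly.const 12) (UPoly.length NPC.Poly.id)) (UPoly.const C)).range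

theorem EL_poly (C : ℕ) (ce : List (ℕ × ℕ)) (P Q : ℕ × ℕ × ℕ) : Poly (EL C ce P Q) := by
  unfold EL
  have u1 : UPoly (fun φ : Φ => 12 * φ.length) := UPoly.mul (UPoly.const 12)
    (UPoly.length NPC.Poly.id)
  have u2 : UPoly (fun φ : Φ => 3 * φ.length) := UPoly.mul (UPoly.const 3)
    (UPoly.length NPC.Poly.id)
  refine NPC.Poly.append ?_ ?_
  · exact NPC.Poly.flatMap (F := fun (_ : Φ) u => ce.map fun e => (u * C + e.1, u * C + e.2))
      u1.range (by fun_prop)
  · refine NPC.Poly.flatMap (F := fun (φ : Φ) o => lks C P.1 P.2.1 P.2.2 φ o ++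
      lks C Q.1 Q.2.1 Q.2.2 φ o) u2.range ?_
    exact NPC.Poly.append (lks_poly _ _ _ _ (NPC.Poly.fst NPC.Poly.id) (NPC.Poly.snd NPC.Poly.id))
      (lks_poly _ _ _ _ (NPC.Poly.fst NPC.Poly.id) (NPC.Poly.snd NPC.Poly.id))

theorem red_poly {W Y : Type} [Fintype W] [Fintype Y] (G : SimpleGraph W)
    (J : SimpleGraph Y) (w : Bool → Y) (df : W → ℕ) (port : Fin 3 → W) :
    Poly (red G J w df port) := by
  unfold red
  exact NPC.Poly.pair (VL_poly _) (EL_poly _ _ _ _)

end Pool.Agent.V11256.KI
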