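import Pool.Agent.V11256.KI.Big

/-!
# The concrete gadgets
-/

set_option autoImplicit false
set_option linter.unusedSectionVars false
set_option linter.unusedFintypeInType false
set_option linter.unusedDecidableInType false

namespace Pool.Agent.V11256.KI

open Finset

/-- The graph on `Fin n` with a given list of edges. -/
def fg (n : ℕ) (l : List (ℕ × ℕ)) : SimpleGraph (Fin n) where
  Adj a b := a ≠ b ∧ ((a.1, b.1) ∈ l ∨ (b.1, a.1) ∈ l)
  symm := ⟨fun _ _ h => ⟨h.1.symm, h.2.symm⟩⟩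
  loopless := ⟨fun _ h => h.1 rfl⟩

/-- adjacency as a Boolean function -/
def fb (n : ℕ) (l : List (ℕ × ℕ)) (a b : Fin n) : Bool :=
  !(decide (a = b)) && (decide ((a.1, b.1) ∈ l) || decide ((b.1, a.1) ∈ l))

theorem fb_iff (n : ℕ) (l : List (ℕ × ℕ)) (a b : Fin n) :
    fb n l a b = true ↔ (fg n l).Adj a b := by
  simp [fb, fg]

/-- degree, computable -/
def fd (n : ℕ) (l : List (ℕ × ℕ)) (S : Finset (Fin n)) (a : Fin n) : ℕ :=
  (S.filter fun b => fb n l a b = true).card

theorem fd_eq (n : ℕ) (l : List (ℕ × ℕ)) (S : Finset (Fin n)) (a : Fin n) :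
    dg (fg n l) S a = fd n l S a := by
  unfold dg fd
  congr 1
  ext b
  simp only [mem_filter, fb_iff]

/-- `k`-independence, computable -/
def fk (n : ℕ) (l : List (ℕ × ℕ)) (k : ℕ) (S : Finset (Fin n)) : Prop :=
  ∀ v ∈ S, fd n l S v ≤ k

instance (n : ℕ) (l : List (ℕ × ℕ)) (k : ℕ) (S : Finset (Fin n)) : Decidable (fk n l k S) := by
  unfold fk; infer_instance

theorem fk_iff (n : ℕ) (l : List (ℕ × ℕ)) (k : ℕ) (S : Finset (Fin n)) :
    KInd k (fg n l) S ↔ fk n l k S := by
  unfold KInd fk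
  simp only [fd_eq]

theorem KInd.mono {V : Type*} {k : ℕ} {G : SimpleGraph V} {S T : Finset V} (h : KInd k G T)
    (hST : S ⊆ T) : KInd k G S := fun v hv => (dg_mono hST v).trans (h v (hST hv))

/-- A gadget on `n` vertices whose maximum `k`-independent sets have `n - 2` vertices. -/
theorem gad_of (n : ℕ) (l : List (ℕ × ℕ)) (k h : ℕ) (port : Fin 3 → Fin n) (hn : n = h + 3)
    (inj : Function.Injective port)
    (tab : ∀ a b : Fin n, fk n l k ((univ.erase a).erase b) →
      a ≠ b ∧ ∀ i, port i ∈ (univ.erase a).erase b ∧ k ≤ fd n l ((univ.erase a).erase b) (port i))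
    (lo : ∃ S, fk n l k S ∧ S.card = h ∧ ∀ i, port i ∉ S)
    (hi : ∃ S, fk n l k S ∧ S.card = h + 1) : Gad k h (fg n l) port := by
  subst hn
  have key : ∀ S, KInd k (fg (h + 3) l) S → h + 1 ≤ S.card → S.card = h + 1 ∧
      ∀ i, port i ∈ S ∧ k ≤ dg (fg (h + 3) l) S (port i) := by
    intro S hS hc
    have hcc : Sᶜ.card ≤ 2 := by
      rw [card_compl, Fintype.card_fin]; omega
    obtain ⟨a, b, hab⟩ : ∃ a b : Fin (h + 3), ((univ.erase a).erase b) ⊆ S := by
      have h2 : Sᶜ.card = 0 ∨ Sᶜ.card = 1 ∨ Sᶜ.card = 2 := by omega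
      rcases h2 with h2 | h2 | h2
      · rw [card_eq_zero] at h2
        refine ⟨0, 0, fun x _ => ?_⟩
        by_contra hx
        have : x ∈ Sᶜ := mem_compl.2 hx
        rw [h2] at this
        simp at this
      · rw [card_eq_one] at h2
        obtain ⟨a, h2⟩ := h2
        refine ⟨a, a, fun x hx => ?_⟩
        by_contra hx'
        have : x ∈ Sᶜ := mem_compl.2 hx'
        rw [h2, mem_singleton] at this
        rw [this] at hx
        simp at hx
      · rw [card_eq_two] at h2
        obtain ⟨a, b, _, h2⟩ := h2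
        refine ⟨a, b, fun x hx => ?_⟩
        by_contra hx'
        have : x ∈ Sᶜ := mem_compl.2 hx'
        rw [h2, mem_insert, mem_singleton] at this
        rw [mem_erase, mem_erase] at hx
        rcases this with h | h
        · exact hx.2.1 h
        · exact hx.1 h
    obtain ⟨t1, t2⟩ := tab a b ((fk_iff _ _ _ _).1 (hS.mono hab))
    have hna : ∀ c d : Fin (h + 3), (∀ x, x ≠ d → x ∈ S) → False := by
      intro c d hh
      obtain ⟨t3, _⟩ := tab d d ((fk_iff _ _ _ _).1 (hS.mono (fun x hx => hh x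
        (mem_erase.1 hx).1)))
      exact t3 rfl
    have ha : a ∉ S := by
      intro ha
      refine hna a b fun x hx => ?_
      by_cases hxa : x = a
      · rw [hxa]; exact ha
      · exact hab (mem_erase.2 ⟨hx, mem_erase.2 ⟨hxa, mem_univ _⟩⟩)
    have hb : b ∉ S := by
      intro hb
      refine hna a a fun x hx => ?_
      by_cases hxb : x = b
      · rw [hxb]; exact hb
      · exact hab (mem_erase.2 ⟨hxb, mem_erase.2 ⟨hx, mem_univ _⟩⟩)
    have hSe : S = (univ.erase a).erase b := by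
      refine Subset.antisymm (fun x hx => ?_) hab
      rw [mem_erase, mem_erase]
      exact ⟨fun e => hb (e ▸ hx), fun e => ha (e ▸ hx), mem_univ _⟩
    refine ⟨?_, ?_⟩
    · rw [hSe, card_erase_of_mem, card_erase_of_mem (mem_univ _), card_univ, Fintype.card_fin]
      · omega
      · exact mem_erase.2 ⟨t1.symm, mem_univ _⟩
    · intro i
      rw [fd_eq, hSe]
      exact t2 i
  refine ⟨inj, ?_, ?_, ?_, ?_⟩
  · intro S hS
    by_contra hc
    have := (key S hS (by omega)).1
    omega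
  · intro S hS hc
    exact (key S hS (by omega)).2
  · obtain ⟨S, h1, h2⟩ := lo
    exact ⟨S, (fk_iff _ _ _ _).2 h1, h2⟩
  · obtain ⟨S, h1, h2⟩ := hi
    exact ⟨S, (fk_iff _ _ _ _).2 h1, h2⟩

/-- The gadget for `k = 0`: a path. -/
def l0 : List (ℕ × ℕ) := [(0, 3), (3, 1), (1, 4), (4, 2)]
/-- The gadget for `k = 1`. -/
def l1 : List (ℕ × ℕ) := [(0, 1), (0, 3), (1, 4), (2, 3), (2, 5), (3, 6), (4, 5)]
/-- The gadget for `k = 2`. -/
def l2 : List (ℕ × ℕ) := [(0, 2), (0, 3), (1, 8), (1, 9), (2, 6), (3, 7), (3, 8), (4, 9), (5, 6),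
  (6, 10), (7, 9), (8, 10)]

theorem gad0 : Gad 0 2 (fg 5 l0) (fun i => ⟨i.1, by omega⟩) := by
  refine gad_of 5 l0 0 2 _ rfl (by decide) (by decide) ⟨{3, 4}, by decide⟩ ⟨{0, 1, 2}, by decide⟩

theorem gad1 : Gad 1 4 (fg 7 l1) (fun i => ⟨i.1, by omega⟩) := by
  refine gad_of 7 l1 1 4 _ rfl (by decide) (by decide) ⟨{3, 4, 5, 6}, by decide⟩
    ⟨{0, 1, 2, 5, 6}, by decide⟩

set_option maxRecDepth 20000 in
theorem gad2 : Gad 2 8 (fg 11 l2) (fun i => ⟨i.1, by omega⟩) := by
  refine gad_of 11 l2 2 8 _ rfl (by decide) (by decide) ⟨{3, 4, 5, 6, 7, 8, 9, 10}, by decide⟩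
    ⟨{0, 1, 2, 3, 4, 5, 6, 8, 9}, by decide⟩

/-- The degree bound. -/
def DegLe {W : Type} [Fintype W] (G : SimpleGraph W) (port : Fin 3 → W) (r : ℕ) : Prop :=
  ∀ a, ∃ b : ℕ, (a ∈ Set.range port → b = 1) ∧ (a ∉ Set.range port → b = 0) ∧
    dg G univ a + b ≤ r

theorem degLe_of (n : ℕ) (l : List (ℕ × ℕ)) (port : Fin 3 → Fin n)
    (h : ∀ a, fd n l univ a + (if ∃ i, port i = a then 1 else 0) ≤ 3) :
    DegLe (fg n l) port 3 := by
  intro a
  refine ⟨if ∃ i, port i = a then 1 else 0, fun h1 => if_pos h1, fun h1 => if_neg h1, ?_⟩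
  rw [fd_eq]; exact h a

theorem deg0 : DegLe (fg 5 l0) (fun i => ⟨i.1, by omega⟩) 3 := degLe_of _ _ _ (by decide)
theorem deg1 : DegLe (fg 7 l1) (fun i => ⟨i.1, by omega⟩) 3 := degLe_of _ _ _ (by decide)
set_option maxRecDepth 20000 in
theorem deg2 : DegLe (fg 11 l2) (fun i => ⟨i.1, by omega⟩) 3 := degLe_of _ _ _ (by decide)

theorem DegLe.leaf {W : Type} [Fintype W] {G : SimpleGraph W} {port : Fin 3 → W} {r : ℕ}
    (h : DegLe G port r) (hr : 0 < r) (t : ℕ) :
    DegLe (leafG G t) (fun i => (port i, 0)) (r + t) := by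
  rintro ⟨x, i⟩
  by_cases hi : i = 0
  · subst hi
    obtain ⟨b, h1, h2, h3⟩ := h x
    refine ⟨b, ?_, ?_, ?_⟩
    · rintro ⟨j, hj⟩
      exact h1 ⟨j, congrArg Prod.fst hj⟩
    · intro hn
      exact h2 fun ⟨j, hj⟩ => hn ⟨j, by simp only; rw [hj]⟩
    · have := leaf_le G t (x := x) (S := univ) (S' := univ) (fun _ _ => mem_univ _)
      omega
  · refine ⟨0, ?_, fun _ => rfl, ?_⟩
    · rintro ⟨j, hj⟩
      exact absurd (congrArg Prod.snd hj).symm hi
    · have := leaf_le1 G t (x := x) hi univ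
      omega

/-! ### Pads -/

/-- The complete graph on `r + 1` vertices without an edge. -/
def J1 (r : ℕ) : SimpleGraph (Fin (r + 1)) where
  Adj a b := a ≠ b ∧ ¬ (a.1 ≤ 1 ∧ b.1 ≤ 1)
  symm := ⟨fun _ _ h => ⟨h.1.symm, fun g => h.2 g.symm⟩⟩
  loopless := ⟨fun _ h => h.1 rfl⟩

/-- Its terminals. -/
def w1 (r : ℕ) (hr : 1 ≤ r) (b : Bool) : Fin (r + 1) := if b then ⟨1, by omega⟩ else 0

theorem w1_inj (r : ℕ) (hr : 1 ≤ r) : Function.Injective (w1 r hr) := by
  intro a b h
  cases a <;> cases b <;> simp [w1, Fin.ext_iff] at h ⊢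

theorem mem_w1 (r : ℕ) (hr : 1 ≤ r) (y : Fin (r + 1)) : y ∈ Set.range (w1 r hr) ↔ y.1 ≤ 1 := by
  constructor
  · rintro ⟨b, rfl⟩
    cases b <;> simp [w1]
  · intro h
    by_cases h0 : y.1 = 0
    · exact ⟨false, by simp [w1, Fin.ext_iff, h0]⟩
    · exact ⟨true, by simp [w1, Fin.ext_iff]; omega⟩

theorem card_small (r : ℕ) (hr : 1 ≤ r) :
    (univ.filter fun y : Fin (r + 1) => y.1 ≤ 1).card = 2 := by
  have : (univ.filter fun y : Fin (r + 1) => y.1 ≤ 1) = {0, ⟨1, by omega⟩} := by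
    ext y
    rw [mem_filter, mem_insert, mem_singleton, Fin.ext_iff, Fin.ext_iff]
    simp only [mem_univ, true_and]
    change y.1 ≤ 1 ↔ y.1 = 0 ∨ y.1 = 1
    omega
  rw [this, card_pair]
  intro h
  simp [Fin.ext_iff] at h

theorem pad1 (k r : ℕ) (hk : 1 ≤ k) (hr : k + 2 ≤ r) :
    Pad k (k + 1) (J1 r) (w1 r (by omega)) := by
  classical
  refine ⟨w1_inj _ _, ?_, ?_⟩
  · intro S hS
    by_contra hc
    obtain ⟨a, ha, ha2⟩ : ∃ a ∈ S, 2 ≤ a.1 := by
      by_contra hn
      push Not at hn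
      have h1 : S ⊆ univ.filter fun y : Fin (r + 1) => y.1 ≤ 1 := fun x hx =>
        mem_filter.2 ⟨mem_univ _, by have := hn x hx; omega⟩
      have h2 := card_le_card h1
      rw [card_small r (by omega)] at h2
      omega
    have h3 : (S.erase a).card ≤ dg (J1 r) S a := by
      refine card_le_card fun x hx => ?_
      rw [mem_erase] at hx
      rw [mem_filter]
      exact ⟨hx.2, hx.1.symm, fun g => by omega⟩
    rw [card_erase_of_mem ha] at h3
    have := hS a ha
    omega
  · refine ⟨univ.filter fun y => 2 ≤ y.1 ∧ y.1 ≤ k + 2, ?_, ?_, ?_⟩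
    · intro a ha
      have h1 : dg (J1 r) (univ.filter fun y => 2 ≤ y.1 ∧ y.1 ≤ k + 2) a ≤
          ((univ.filter fun y : Fin (r + 1) => 2 ≤ y.1 ∧ y.1 ≤ k + 2).erase a).card := by
        refine card_le_card fun x hx => ?_
        rw [mem_filter] at hx
        rw [mem_erase]
        exact ⟨hx.2.1.symm, hx.1⟩
      refine h1.trans ?_
      rw [card_erase_of_mem ha]
      have h2 : (univ.filter fun y : Fin (r + 1) => 2 ≤ y.1 ∧ y.1 ≤ k + 2).card ≤
          (Finset.Icc 2 (k + 2)).card := by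
        refine card_le_card_of_injOn (fun y => y.1) (fun y hy => ?_) (fun y _ z _ h => Fin.ext h)
        rw [mem_coe, mem_filter] at hy
        rw [mem_coe, Finset.mem_Icc]; exact hy.2
      rw [Nat.card_Icc] at h2
      omega
    · have : (univ.filter fun y : Fin (r + 1) => 2 ≤ y.1 ∧ y.1 ≤ k + 2).card =
          (Finset.Icc 2 (k + 2)).card := by
        refine card_bij (fun y _ => y.1) (fun y hy => ?_) (fun y _ z _ h => Fin.ext h)
          (fun b hb => ?_)
        · rw [mem_filter] at hy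
          rw [Finset.mem_Icc]; exact hy.2
        · rw [Finset.mem_Icc] at hb
          exact ⟨⟨b, by omega⟩, mem_filter.2 ⟨mem_univ _, hb⟩, rfl⟩
      rw [this, Nat.card_Icc]
      omega
    · intro b hb
      have h1 := (mem_w1 r (by omega) _).1 ⟨b, rfl⟩
      have h2 := (mem_filter.1 hb).2.1
      omega

theorem deg_J1 (r : ℕ) (hr : 1 ≤ r) (y : Fin (r + 1)) :
    ∃ b : ℕ, (y ∈ Set.range (w1 r hr) → b = 1) ∧ (y ∉ Set.range (w1 r hr) → b = 0) ∧
      dg (J1 r) univ y + b = r := by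
  classical
  rw [mem_w1]
  by_cases hy : y.1 ≤ 1
  · refine ⟨1, fun _ => rfl, fun h => absurd hy h, ?_⟩
    have e : (univ.filter fun x => (J1 r).Adj y x) =
        (univ.filter fun x : Fin (r + 1) => x.1 ≤ 1)ᶜ := by
      ext x
      rw [mem_filter, mem_compl, mem_filter]
      simp only [mem_univ, true_and]
      constructor
      · rintro ⟨_, h2⟩ h3; exact h2 ⟨hy, h3⟩
      · intro h; exact ⟨fun e => h (e ▸ hy), fun g => h g.2⟩
    have h1 : dg (J1 r) univ y = r - 1 := by
      unfold dg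
      rw [show (univ.filter fun x => (J1 r).Adj y x) = _ from e, card_compl,
        card_small r hr, Fintype.card_fin]
      omega
    omega
  · refine ⟨0, fun h => absurd h hy, fun _ => rfl, ?_⟩
    have e : (univ.filter fun x => (J1 r).Adj y x) = univ.erase y := by
      ext x
      rw [mem_filter, mem_erase]
      constructor
      · rintro ⟨_, h2⟩; exact ⟨h2.1.symm, mem_univ _⟩
      · rintro ⟨h, _⟩; exact ⟨mem_univ _, h.symm, fun g => hy g.1⟩
    unfold dg
    rw [show (univ.filter fun x => (J1 r).Adj y x) = _ from e, card_erase_of_mem (mem_univ _),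
      card_univ, Fintype.card_fin]
    omega

/-- The complete bipartite graph `K_{r,r}` without an edge. -/
def J2 (r : ℕ) : SimpleGraph (Bool × Fin r) where
  Adj a b := a.1 ≠ b.1 ∧ ¬ (a.2.1 = 0 ∧ b.2.1 = 0)
  symm := ⟨fun _ _ h => ⟨h.1.symm, fun g => h.2 g.symm⟩⟩
  loopless := ⟨fun _ h => h.1 rfl⟩

/-- Its terminals. -/
def w2 (r : ℕ) (hr : 0 < r) (b : Bool) : Bool × Fin r := (b, ⟨0, hr⟩)

theorem w2_inj (r : ℕ) (hr : 0 < r) : Function.Injective (w2 r hr) := fun _ _ h =>
  congrArg Prod.fst h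

theorem mem_w2 (r : ℕ) (hr : 0 < r) (y : Bool × Fin r) :
    y ∈ Set.range (w2 r hr) ↔ y.2.1 = 0 := by
  constructor
  · rintro ⟨b, rfl⟩; rfl
  · intro h
    exact ⟨y.1, Prod.ext rfl (Fin.ext h.symm)⟩

theorem card_side (r : ℕ) (b : Bool) :
    (univ.filter fun y : Bool × Fin r => y.1 = b).card = r := by
  have : (univ.filter fun y : Bool × Fin r => y.1 = b) = {b} ×ˢ univ := by
    ext ⟨c, x⟩
    simp [eq_comm]
  rw [this, card_product, card_singleton, card_univ, Fintype.card_fin, one_mul]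

theorem card_side' (r : ℕ) (hr : 0 < r) (b : Bool) :
    (univ.filter fun y : Bool × Fin r => y.1 = b ∧ y.2.1 ≠ 0).card = r - 1 := by
  have : (univ.filter fun y : Bool × Fin r => y.1 = b ∧ y.2.1 ≠ 0) =
      (univ.filter fun y : Bool × Fin r => y.1 = b).erase (b, ⟨0, hr⟩) := by
    ext ⟨c, x⟩
    simp only [mem_filter, mem_univ, true_and, mem_erase, ne_eq, Prod.mk.injEq, not_and,
      Fin.ext_iff]
    constructor
    · rintro ⟨h1, h2⟩; exact ⟨fun _ => h2, h1⟩
    · rintro ⟨h1, h2⟩; exact ⟨h2, h1 h2⟩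
  rw [this, card_erase_of_mem (by simp), card_side]

theorem pad2 (k : ℕ) (hk : 2 ≤ k) : Pad k (2 * k) (J2 (k + 1)) (w2 (k + 1) (by omega)) := by
  classical
  refine ⟨w2_inj _ _, ?_, ?_⟩
  · intro S hS
    by_contra hc
    have hcc : Sᶜ.card ≤ 1 := by
      rw [card_compl, Fintype.card_prod, Fintype.card_bool, Fintype.card_fin]; omega
    -- a vertex all of whose neighbours are in `S`
    obtain ⟨a, ha, ha0, hall⟩ : ∃ a ∈ S, a.2.1 ≠ 0 ∧ ∀ b, b.1 ≠ a.1 → b ∈ S := by
      have h2 : Sᶜ.card = 0 ∨ Sᶜ.card = 1 := by omega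
      rcases h2 with h2 | h2
      · rw [card_eq_zero] at h2
        have hS' : ∀ x, x ∈ S := fun x => by
          by_contra hx
          have : x ∈ Sᶜ := mem_compl.2 hx
          rw [h2] at this
          simp at this
        exact ⟨(false, ⟨1, by omega⟩), hS' _, by simp, fun b _ => hS' b⟩
      · rw [card_eq_one] at h2
        obtain ⟨z, h2⟩ := h2
        have hS' : ∀ x, x ≠ z → x ∈ S := fun x hxz => by
          by_contra hx
          have : x ∈ Sᶜ := mem_compl.2 hx
          rw [h2, mem_singleton] at this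
          exact hxz this
        by_cases hz : z.2.1 = 1
        · refine ⟨(z.1, ⟨2, by omega⟩), hS' _ (fun e => ?_), by simp, fun b hb => hS' b fun e => ?_⟩
          · rw [← e] at hz; simp at hz
          · exact hb (by rw [e])
        · refine ⟨(z.1, ⟨1, by omega⟩), hS' _ (fun e => ?_), by simp, fun b hb => hS' b fun e => ?_⟩
          · rw [← e] at hz; simp at hz
          · exact hb (by rw [e])
    have h3 : (univ.filter fun y : Bool × Fin (k + 1) => y.1 = !a.1).card ≤ dg (J2 (k + 1)) S a := by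
      refine card_le_card fun x hx => ?_
      rw [mem_filter] at hx
      rw [mem_filter]
      have h4 : x.1 ≠ a.1 := by rw [hx.2]; cases a.1 <;> simp
      exact ⟨hall x h4, h4.symm, fun g => ha0 g.1⟩
    rw [card_side] at h3
    have := hS a ha
    omega
  · refine ⟨univ.filter fun y => y.2.1 ≠ 0, ?_, ?_, ?_⟩
    · intro a ha
      have h1 : dg (J2 (k + 1)) (univ.filter fun y => y.2.1 ≠ 0) a ≤
          (univ.filter fun y : Bool × Fin (k + 1) => y.1 = (!a.1) ∧ y.2.1 ≠ 0).card := by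
        refine card_le_card fun x hx => ?_
        rw [mem_filter] at hx
        rw [mem_filter]
        refine ⟨mem_univ _, ?_, (mem_filter.1 hx.1).2⟩
        have := hx.2.1
        revert this
        cases a.1 <;> cases x.1 <;> simp
      refine h1.trans ?_
      rw [card_side' _ (by omega)]
      omega
    · have : (univ.filter fun y : Bool × Fin (k + 1) => y.2.1 ≠ 0) =
          (univ.filter fun y : Bool × Fin (k + 1) => y.1 = false ∧ y.2.1 ≠ 0) ∪
          (univ.filter fun y : Bool × Fin (k + 1) => y.1 = true ∧ y.2.1 ≠ 0) := by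
        ext ⟨c, x⟩
        cases c <;> simp
      rw [this, card_union_of_disjoint, card_side' _ (by omega), card_side' _ (by omega)]
      · omega
      · rw [disjoint_left]
        intro x hx hx'
        rw [mem_filter] at hx hx'
        rw [hx.2.1] at hx'
        simp at hx'
    · intro b hb
      exact (mem_filter.1 hb).2 rfl

theorem deg_J2 (r : ℕ) (hr : 0 < r) (y : Bool × Fin r) :
    ∃ b : ℕ, (y ∈ Set.range (w2 r hr) → b = 1) ∧ (y ∉ Set.range (w2 r hr) → b = 0) ∧
      dg (J2 r) univ y + b = r := by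
  classical
  rw [mem_w2]
  by_cases hy : y.2.1 = 0
  · refine ⟨1, fun _ => rfl, fun h => absurd hy h, ?_⟩
    have e : (univ.filter fun x => (J2 r).Adj y x) =
        univ.filter fun x : Bool × Fin r => x.1 = (!y.1) ∧ x.2.1 ≠ 0 := by
      ext x
      rw [mem_filter, mem_filter]
      simp only [mem_univ, true_and]
      constructor
      · rintro ⟨h1, h2⟩
        refine ⟨?_, fun h3 => h2 ⟨hy, h3⟩⟩
        revert h1
        cases y.1 <;> cases x.1 <;> simp
      · rintro ⟨h1, h2⟩
        refine ⟨?_, fun h3 => h2 h3.2⟩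
        rw [h1]; cases y.1 <;> simp
    unfold dg
    rw [show (univ.filter fun x => (J2 r).Adj y x) = _ from e, card_side' r hr]
    omega
  · refine ⟨0, fun h => absurd h hy, fun _ => rfl, ?_⟩
    have e : (univ.filter fun x => (J2 r).Adj y x) =
        univ.filter fun x : Bool × Fin r => x.1 = (!y.1) := by
      ext x
      rw [mem_filter, mem_filter]
      simp only [mem_univ, true_and]
      constructor
      · rintro ⟨h1, _⟩
        revert h1
        cases y.1 <;> cases x.1 <;> simp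
      · intro h1
        refine ⟨?_, fun h3 => hy h3.1⟩
        rw [h1]; cases y.1 <;> simp
    unfold dg
    rw [show (univ.filter fun x => (J2 r).Adj y x) = _ from e, card_side]
    rfl

/-- The data of the construction. -/
theorem exists_data (k r : ℕ) (hk : 1 ≤ k) (hr : 3 ≤ r) (hkr : k + 1 ≤ r) :
    ∃ (W Y : Type) (_ : Fintype W) (_ : Fintype Y) (G : SimpleGraph W) (J : SimpleGraph Y)
      (port : Fin 3 → W) (w : Bool → Y) (h j : ℕ), Gad k h G port ∧ Pad k j J w ∧
      DegLe G port r ∧ ∀ y, ∃ b : ℕ, (y ∈ Set.range w → b = 1) ∧ (y ∉ Set.range w → b = 0) ∧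
        dg J univ y + b = r := by
  obtain ⟨W, hW, G, port, h, hG, hD⟩ : ∃ (W : Type) (_ : Fintype W) (G : SimpleGraph W)
      (port : Fin 3 → W) (h : ℕ), Gad k h G port ∧ DegLe G port r := by
    have mono : ∀ {W : Type} [Fintype W] {G : SimpleGraph W} {port : Fin 3 → W} {r' : ℕ},
        DegLe G port r' → r' ≤ r → DegLe G port r := by
      intro W _ G port r' hd hle a
      obtain ⟨b, h1, h2, h3⟩ := hd a
      exact ⟨b, h1, h2, h3.trans hle⟩
    by_cases h3 : k + 3 ≤ r
    · have g := gad0.leaf (t := k)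
      rw [Nat.zero_add] at g
      exact ⟨_, _, _, _, _, g, mono (deg0.leaf (by norm_num) k) (by omega)⟩
    · by_cases h2 : k + 2 ≤ r
      · have g := gad1.leaf (t := k - 1)
        rw [show 1 + (k - 1) = k by omega] at g
        exact ⟨_, _, _, _, _, g, mono (deg1.leaf (by norm_num) (k - 1)) (by omega)⟩
      · have g := gad2.leaf (t := k - 2)
        rw [show 2 + (k - 2) = k by omega] at g
        exact ⟨_, _, _, _, _, g, mono (deg2.leaf (by norm_num) (k - 2)) (by omega)⟩
  by_cases h2 : k + 2 ≤ r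
  · exact ⟨W, _, hW, _, G, J1 r, port, w1 r (by omega), h, k + 1, hG, pad1 k r hk h2, hD,
      deg_J1 r (by omega)⟩
  · obtain rfl : r = k + 1 := by omega
    exact ⟨W, _, hW, _, G, J2 (k + 1), port, w2 (k + 1) (by omega), h, 2 * k, hG,
      pad2 k (by omega), hD, deg_J2 (k + 1) (by omega)⟩

end Pool.Agent.V11256.KI
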